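import Mathlib

set_option autoImplicit false

/-!
Absolute convergence and the Euler product of the L-series of a formal Euler product.
-/

namespace LSeries
end LSeries

namespace Pool.Agent.Lib.MP_bf61d2_nt

open ArithmeticFunction Filter Topology LSeries

/-- The coefficientwise absolute value. -/
def absA (f : ArithmeticFunction ℤ) : ArithmeticFunction ℤ := ⟨fun n => |f n|, by simp⟩

@[simp] lemma absA_apply (f : ArithmeticFunction ℤ) (n : ℕ) : absA f n = |f n| := rfl

variable {ι : Type*} {f : ι → ArithmeticFunction ℤ}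

lemma prodAbs_nonneg (S : Finset ι) (n : ℕ) : 0 ≤ (∏ i ∈ S, absA (f i)) n := by
  classical
  induction S using Finset.induction_on generalizing n with
  | empty =>
    rw [Finset.prod_empty, one_apply]
    split_ifs <;> simp
  | insert i S hi ih =>
    rw [Finset.prod_insert hi, mul_apply]
    exact Finset.sum_nonneg fun x _ => mul_nonneg (abs_nonneg _) (ih _)

lemma abs_prod_le (S : Finset ι) (n : ℕ) : |(∏ i ∈ S, f i) n| ≤ (∏ i ∈ S, absA (f i)) n := by
  classical
  induction S using Finset.induction_on generalizing n with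
  | empty =>
    rw [Finset.prod_empty, Finset.prod_empty, one_apply]
    split_ifs <;> simp
  | insert i S hi ih =>
    rw [Finset.prod_insert hi, Finset.prod_insert hi, mul_apply, mul_apply]
    refine (Finset.abs_sum_le_sum_abs _ _).trans (Finset.sum_le_sum fun x _ => ?_)
    rw [abs_mul]
    exact mul_le_mul_of_nonneg_left (ih _) (abs_nonneg _)

lemma prod_apply_one (S : Finset ι) (h1 : ∀ i, f i 1 = 1) : (∏ i ∈ S, absA (f i)) 1 = 1 := by
  classical
  induction S using Finset.induction_on with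
  | empty => rw [Finset.prod_empty, one_one]
  | insert i S hi ih =>
    rw [Finset.prod_insert hi, mul_apply_one, ih, absA_apply, h1]; simp

lemma prodAbs_mono (h1 : ∀ i, f i 1 = 1) {S T : Finset ι} (hST : S ⊆ T) (n : ℕ) :
    (∏ i ∈ S, absA (f i)) n ≤ (∏ i ∈ T, absA (f i)) n := by
  classical
  rcases Nat.eq_zero_or_pos n with rfl | hn
  · simp
  rw [← Finset.prod_sdiff hST, mul_apply]
  have hmem : ((1, n) : ℕ × ℕ) ∈ n.divisorsAntidiagonal := by
    rw [Nat.mem_divisorsAntidiagonal]; exact ⟨one_mul n, hn.ne'⟩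
  refine le_trans ?_ (Finset.single_le_sum (f := fun x : ℕ × ℕ =>
    (∏ i ∈ T \ S, absA (f i)) x.1 * (∏ i ∈ S, absA (f i)) x.2)
    (fun x _ => mul_nonneg (prodAbs_nonneg _ _) (prodAbs_nonneg _ _)) hmem)
  simp only
  rw [prod_apply_one _ h1, one_mul]

/-- The L-series of a finite product. -/
lemma hasSum_prod {g : ι → ArithmeticFunction ℤ} {s : ℂ} {β : ι → ℂ}
    (h : ∀ i, LSeriesHasSum (fun n => ((g i n : ℤ) : ℂ)) s (β i)) (S : Finset ι) :
    LSeriesHasSum (fun n => (((∏ i ∈ S, g i) n : ℤ) : ℂ)) s (∏ i ∈ S, β i) := by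
  classical
  induction S using Finset.induction_on with
  | empty =>
    rw [Finset.prod_empty, Finset.prod_empty]
    have e : term (fun n => (((1 : ArithmeticFunction ℤ) n : ℤ) : ℂ)) s =
        fun n => if n = 1 then 1 else 0 := by
      ext n
      rw [term_def]
      by_cases hn : n = 1
      · subst hn; simp
      · simp [one_apply_ne hn, hn]
    rw [LSeriesHasSum, e]
    exact hasSum_ite_eq 1 1
  | insert i S hi ih =>
    rw [Finset.prod_insert hi, Finset.prod_insert hi]
    have e : (fun n => (((g i * ∏ i ∈ S, g i) n : ℤ) : ℂ)) =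
        fun n => (((g i : ArithmeticFunction ℂ) * ((∏ i ∈ S, g i : ArithmeticFunction ℤ) :
          ArithmeticFunction ℂ)) n) := by
      ext n
      rw [← intCoe_mul, intCoe_apply]
    rw [e]
    exact LSeriesHasSum_mul (by simpa using h i) (by simpa using ih)

lemma term_abs (g : ArithmeticFunction ℤ) (σ : ℝ) (n : ℕ) :
    term (fun n => ((|g n| : ℤ) : ℂ)) (σ : ℂ) n =
      ((‖term (fun n => ((g n : ℤ) : ℂ)) (σ : ℂ) n‖ : ℝ) : ℂ) := by
  rcases Nat.eq_zero_or_pos n with rfl | hn
  · simp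
  · rw [term_of_ne_zero hn.ne', term_of_ne_zero hn.ne', norm_div, Complex.norm_intCast,
      Complex.norm_natCast_cpow_of_pos hn, Complex.ofReal_re, Complex.ofReal_div,
      Complex.ofReal_cpow (Nat.cast_nonneg n)]
    have e : ((|g n| : ℤ) : ℂ) = ((|((g n : ℤ) : ℝ)| : ℝ) : ℂ) := by
      rw [← Int.cast_abs, Complex.ofReal_intCast]
    rw [e]
    simp

/-- Absolute convergence and Euler product for formal Euler products. -/
theorem eulerProduct_LSeries (h1 : ∀ i, f i 1 = 1)
    (hcof : ∀ n, ∀ᶠ i in cofinite, f i n = (1 : ArithmeticFunction ℤ) n) {σ : ℝ} {x : ι → ℝ}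
    (hx : Summable x) (hx0 : ∀ i, 0 ≤ x i)
    (hsum : ∀ i, LSeriesSummable (fun n => ((f i n : ℤ) : ℂ)) σ)
    (hle : ∀ i, ∑' n, ‖term (fun n => ((f i n : ℤ) : ℂ)) (σ : ℂ) n‖ ≤ 1 + x i) {s : ℂ}
    (hs : σ ≤ s.re) :
    LSeriesSummable (fun n => ((eulerProduct f n : ℤ) : ℂ)) s ∧
      Tendsto (fun S : Finset ι => ∏ i ∈ S, LSeries (fun n => ((f i n : ℤ) : ℂ)) s) atTop
        (𝓝 (LSeries (fun n => ((eulerProduct f n : ℤ) : ℂ)) s)) := by
  classical
  set β : ι → ℝ := fun i => ∑' n, ‖term (fun n => ((f i n : ℤ) : ℂ)) (σ : ℂ) n‖ with hβ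
  have hβ0 : ∀ i, 0 ≤ β i := fun i => tsum_nonneg fun _ => norm_nonneg _
  set B : ℝ := Real.exp (∑' i, x i) with hB
  -- the L-series of the absolute values
  have habs : ∀ i, LSeriesHasSum (fun n => ((absA (f i) n : ℤ) : ℂ)) (σ : ℂ) (β i : ℂ) := by
    intro i
    have e : term (fun n => ((absA (f i) n : ℤ) : ℂ)) (σ : ℂ) =
        fun n => ((‖term (fun n => ((f i n : ℤ) : ℂ)) (σ : ℂ) n‖ : ℝ) : ℂ) := by
      ext n; exact term_abs (f i) σ n
    rw [LSeriesHasSum, e]
    exact Complex.hasSum_ofReal.mpr (hsum i).norm.hasSum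
  -- bound for finite products
  have hbound : ∀ (S : Finset ι) (T : Finset ℕ),
      ∑ n ∈ T, ‖term (fun n => (((∏ i ∈ S, absA (f i)) n : ℤ) : ℂ)) (σ : ℂ) n‖ ≤ B := by
    intro S T
    have h := hasSum_prod habs S
    have e : term (fun n => (((∏ i ∈ S, absA (f i)) n : ℤ) : ℂ)) (σ : ℂ) =
        fun n => ((‖term (fun n => (((∏ i ∈ S, absA (f i)) n : ℤ) : ℂ)) (σ : ℂ) n‖ : ℝ) : ℂ) := by
      ext n
      rw [← term_abs]
      congr 1
      ext n
      rw [abs_of_nonneg (prodAbs_nonneg S n)]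
    rw [LSeriesHasSum, e, ← Complex.ofReal_prod, Complex.hasSum_ofReal] at h
    refine (sum_le_hasSum T (fun _ _ => norm_nonneg _) h).trans ?_
    calc ∏ i ∈ S, β i ≤ ∏ i ∈ S, Real.exp (x i) := by
          refine Finset.prod_le_prod (fun i _ => hβ0 i) fun i _ => (hle i).trans ?_
          rw [add_comm]; exact Real.add_one_le_exp _
      _ = Real.exp (∑ i ∈ S, x i) := (Real.exp_sum _ _).symm
      _ ≤ B := Real.exp_le_exp.mpr (hx.sum_le_tsum S fun i _ => hx0 i)
  -- pointwise convergence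
  have hconv := tendsTo_eulerProduct_of_tendsTo f hcof
  have hcof' : ∀ n, ∀ᶠ i in cofinite, absA (f i) n = (1 : ArithmeticFunction ℤ) n := by
    intro n
    filter_upwards [hcof n] with i hi
    rw [absA_apply, hi, one_apply]
    split_ifs <;> simp
  have hconv' := tendsTo_eulerProduct_of_tendsTo (fun i => absA (f i)) hcof'
  set aI : ArithmeticFunction ℤ := eulerProduct (fun i => absA (f i)) with haI
  have hleI : ∀ (S : Finset ι) (n : ℕ), (∏ i ∈ S, absA (f i)) n ≤ aI n := by
    intro S n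
    obtain ⟨T, hT⟩ := (hconv' n).exists_forall_of_atTop
    have h2 := hT (S ∪ T) Finset.subset_union_right
    rw [← h2]
    exact prodAbs_mono h1 Finset.subset_union_left n
  have hnnI : ∀ n, 0 ≤ aI n := fun n => by
    have := hleI ∅ n
    exact (prodAbs_nonneg ∅ n).trans this
  -- summability of the majorant
  have hsumI : Summable fun n => ‖term (fun n => ((aI n : ℤ) : ℂ)) (σ : ℂ) n‖ := by
    refine summable_of_sum_le (fun _ => norm_nonneg _) (c := B) fun T => ?_
    have h2 : ∀ᶠ S : Finset ι in atTop, ∀ n ∈ T, (∏ i ∈ S, absA (f i)) n = aI n :=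
      (Filter.eventually_all_finset T).mpr fun n _ => hconv' n
    obtain ⟨S, hS⟩ := h2.exists
    refine le_trans (le_of_eq (Finset.sum_congr rfl fun n hn => ?_)) (hbound S T)
    rw [norm_term_eq, norm_term_eq, hS n hn]
  have hdom : ∀ (S : Finset ι) (n : ℕ), ‖term (fun n => (((∏ i ∈ S, f i) n : ℤ) : ℂ)) s n‖ ≤
      ‖term (fun n => ((aI n : ℤ) : ℂ)) (σ : ℂ) n‖ := by
    intro S n
    refine (norm_term_le_of_re_le_re _ (s := (σ : ℂ)) (s' := s) (by simpa using hs) n).trans ?_
    refine norm_term_le _ ?_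
    rw [Complex.norm_intCast, Complex.norm_intCast]
    have h2 := (abs_prod_le (f := f) S n).trans (hleI S n)
    rw [abs_of_nonneg (by exact_mod_cast hnnI n : (0 : ℝ) ≤ ((aI n : ℤ) : ℝ))]
    exact_mod_cast h2
  have hlim : ∀ n, Tendsto (fun S : Finset ι => term (fun n => (((∏ i ∈ S, f i) n : ℤ) : ℂ)) s n)
      atTop (𝓝 (term (fun n => ((eulerProduct f n : ℤ) : ℂ)) s n)) := by
    intro n
    refine tendsto_const_nhds.congr' ?_
    filter_upwards [hconv n] with S hS
    rw [term_def, term_def, hS]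
  constructor
  · refine Summable.of_norm_bounded hsumI fun n => ?_
    exact le_of_tendsto (hlim n).norm (Eventually.of_forall fun S => hdom S n)
  · have h3 := tendsto_tsum_of_dominated_convergence hsumI hlim (Eventually.of_forall hdom)
    refine h3.congr fun S => ?_
    have h4 := hasSum_prod (g := f) (s := s) (fun i =>
      (LSeriesSummable.of_re_le_re (s := (σ : ℂ)) (by simpa using hs) (hsum i)).LSeriesHasSum) S
    exact h4.LSeries_eq

end Pool.Agent.Lib.MP_bf61d2_nt
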