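import Mathlib
import Pool.Agent.Lib.MP_bf61d2_nt.Trim.DegStep
import Pool.Agent.Lib.MP_bf61d2_nt.Trim.Unimod
import Pool.Agent.Lib.MP_bf61d2_nt.Trim.XCoord

set_option autoImplicit false

/-!
The twist of a constant curve by its own cubic over the rational function field, and the degree
function on its points.
-/

namespace WeierstrassCurve
end WeierstrassCurve

namespace Pool.Agent.Lib.MP_bf61d2_nt

open WeierstrassCurve WeierstrassCurve.Affine Polynomial

variable {F : Type*} [Field F] {K : Type*} [Field K] [Algebra F[X] K] [IsFractionRing F[X] K]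

/-- The cubic polynomial. -/
noncomputable def cub (W : WeierstrassCurve F) : F[X] :=
  X ^ 3 + C W.a₂ * X ^ 2 + C W.a₄ * X + C W.a₆

/-- The twisted curve. -/
noncomputable def tw (K : Type*) [Field K] [Algebra F[X] K] (W : WeierstrassCurve F) :
    WeierstrassCurve K :=
  ⟨0, algebraMap F[X] K (C W.a₂) * algebraMap F[X] K (cub W), 0,
    algebraMap F[X] K (C W.a₄) * algebraMap F[X] K (cub W) ^ 2,
    algebraMap F[X] K (C W.a₆) * algebraMap F[X] K (cub W) ^ 3⟩

variable {W : WeierstrassCurve F}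

/-- Reduced representation of the normalised x-coordinate. -/
def Rep (P : (tw K W).toAffine.Point) (f g : F[X]) : Prop :=
  IsCoprime f g ∧ ∃ c : K, c ≠ 0 ∧ algebraMap F[X] K f * algebraMap F[X] K (cub W) = c * P.xRep 0 ∧
    algebraMap F[X] K g = c * P.xRep 1

/-- The degree of a point. -/
def Good (P : (tw K W).toAffine.Point) (d : ℕ) : Prop :=
  ∃ f g : F[X], Rep P f g ∧ g.degree < f.degree ∧ f.natDegree = d

lemma cub_ne_zero : cub W ≠ 0 := by
  intro h
  have h1 : (cub W).coeff 3 = 0 := by rw [h]; simp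
  rw [cub] at h1
  simp at h1

lemma map_cub_ne_zero : algebraMap F[X] K (cub W) ≠ 0 := by
  rw [Ne, FaithfulSMul.algebraMap_eq_zero_iff]
  exact cub_ne_zero

lemma exists_rep (P : (tw K W).toAffine.Point) : ∃ f g : F[X], Rep P f g := by
  have hl : algebraMap F[X] K (cub W) ≠ 0 := map_cub_ne_zero
  rcases P with (_ | ⟨x, y, hP⟩)
  · refine ⟨1, 0, isCoprime_one_left, algebraMap F[X] K (cub W), hl, ?_, ?_⟩
    · rw [← Point.zero_def, Point.xRep_zero]; simp
    · rw [← Point.zero_def, Point.xRep_zero]; simp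
  · set z : K := x / algebraMap F[X] K (cub W) with hz
    have h1 := IsFractionRing.num_den_reduced F[X] z
    have h2 : IsCoprime (IsFractionRing.num F[X] z) (IsFractionRing.den F[X] z : F[X]) :=
      h1.isCoprime
    have h3 := IsFractionRing.mk'_num_den' F[X] z
    have h4 : algebraMap F[X] K (IsFractionRing.den F[X] z : F[X]) ≠ 0 := by
      rw [Ne, FaithfulSMul.algebraMap_eq_zero_iff]
      exact nonZeroDivisors.coe_ne_zero _
    refine ⟨_, _, h2, algebraMap F[X] K (IsFractionRing.den F[X] z : F[X]), h4, ?_, ?_⟩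
    · rw [Point.xRep_some]
      simp only [Matrix.cons_val_zero]
      rw [div_eq_iff h4] at h3
      rw [h3, hz]
      field_simp
    · rw [Point.xRep_some]; simp

lemma rep_unique {P : (tw K W).toAffine.Point} {f g f' g' : F[X]} (h : Rep P f g)
    (h' : Rep P f' g') : f.natDegree = f'.natDegree := by
  obtain ⟨hc, c, hc0, h1, h2⟩ := h
  obtain ⟨hc', c', hc0', h1', h2'⟩ := h'
  have hl : algebraMap F[X] K (cub W) ≠ 0 := map_cub_ne_zero
  have e1 : f * g' = f' * g := by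
    apply FaithfulSMul.algebraMap_injective F[X] K
    rw [map_mul, map_mul]
    apply mul_left_cancel₀ hl
    calc algebraMap F[X] K (cub W) * (algebraMap F[X] K f * algebraMap F[X] K g')
        = (algebraMap F[X] K f * algebraMap F[X] K (cub W)) * algebraMap F[X] K g' := by ring
      _ = (algebraMap F[X] K f' * algebraMap F[X] K (cub W)) * algebraMap F[X] K g := by
          rw [h1, h2', h1', h2]; ring
      _ = _ := by ring
  have d1 : f ∣ f' := by
    have : f ∣ f' * g := ⟨g', e1.symm⟩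
    exact hc.dvd_of_dvd_mul_right this
  have d2 : f' ∣ f := by
    have : f' ∣ f * g' := ⟨g, e1⟩
    exact hc'.dvd_of_dvd_mul_right this
  exact natDegree_eq_of_degree_eq (degree_eq_degree_of_associated (associated_of_dvd_dvd d1 d2))

lemma Good.unique {P : (tw K W).toAffine.Point} {d d' : ℕ} (h : Good P d) (h' : Good P d') :
    d = d' := by
  obtain ⟨f, g, hr, -, hd⟩ := h
  obtain ⟨f', g', hr', -, hd'⟩ := h'
  rw [← hd, ← hd']
  exact rep_unique hr hr'

/-- The `x`-coordinate of the tautological point. -/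
lemma nonsing_iff (hell : W.IsElliptic) (h1 : W.a₁ = 0) (h3 : W.a₃ = 0) (x y : K) :
    (tw K W).toAffine.Nonsingular x y ↔ (tw K W).toAffine.Equation x y := by
  have hl : algebraMap F[X] K (cub W) ≠ 0 := map_cub_ne_zero
  have hΔ : (tw K W).Δ ≠ 0 := by
    have e : (tw K W).Δ = algebraMap F[X] K (C W.Δ) * algebraMap F[X] K (cub W) ^ 6 := by
      simp only [Δ, b₂, b₄, b₆, b₈, tw, h1, h3, map_neg, map_sub, map_add, map_mul, map_pow,
        map_zero, map_ofNat, map_one]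
      ring
    rw [e]
    refine mul_ne_zero ?_ (pow_ne_zero 6 hl)
    rw [Ne, FaithfulSMul.algebraMap_eq_zero_iff, C_eq_zero]
    exact hell.isUnit.ne_zero
  exact (equation_iff_nonsingular_of_Δ_ne_zero hΔ).symm

variable [DecidableEq K]

/-- The main step: the parallelogram law for degrees. -/
lemma good_step (hell : W.IsElliptic) (h1 : W.a₁ = 0) (h3 : W.a₃ = 0) (h2 : (2 : F) ≠ 0)
    {P Q : (tw K W).toAffine.Point} {d : ℕ}
    (hQ0 : Q.xRep 0 = algebraMap F[X] K X * algebraMap F[X] K (cub W)) (hQ1 : Q.xRep 1 = 1)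
    (hP : Good P d) : ∃ d₁ d₂ : ℕ, Good (P + Q) d₁ ∧ Good (P - Q) d₂ ∧ d₁ + d₂ = 2 * d + 2 := by
  obtain ⟨f, g, ⟨hcop, c₁, hc₁, hf, hg⟩, hdeg, hd⟩ := hP
  obtain ⟨f₁, g₁, hr₁⟩ := exists_rep (P + Q)
  obtain ⟨f₂, g₂, hr₂⟩ := exists_rep (P - Q)
  obtain ⟨hcop₁, k₁, hk₁, hf₁, hg₁⟩ := id hr₁
  obtain ⟨hcop₂, k₂, hk₂, hf₂, hg₂⟩ := id hr₂
  have hl : algebraMap F[X] K (cub W) ≠ 0 := map_cub_ne_zero
  have h2' : (2 : K) ≠ 0 := by
    have e : (2 : K) = algebraMap F[X] K (C 2) := by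
      rw [show (C (2 : F) : F[X]) = 2 from map_ofNat C 2, map_ofNat]
    rw [e, Ne, FaithfulSMul.algebraMap_eq_zero_iff, C_eq_zero]
    exact h2
  obtain ⟨c, hc, e0, e1, e2⟩ := addSub (V := tw K W) rfl rfl h2' P Q
  rw [hQ0, hQ1] at e0 e1 e2
  set l := algebraMap F[X] K (cub W) with hldef
  set ι := algebraMap F[X] K with hι
  -- the scaling constant
  set κ : K := c * c₁ ^ 2 / (l ^ 2 * (k₁ * k₂)) with hκ
  have hκ0 : κ ≠ 0 := by
    rw [hκ]
    refine div_ne_zero (mul_ne_zero hc (pow_ne_zero 2 hc₁)) ?_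
    exact mul_ne_zero (pow_ne_zero 2 hl) (mul_ne_zero hk₁ hk₂)
  have ha2 : (tw K W).a₂ = ι (C W.a₂) * l := rfl
  have ha4 : (tw K W).a₄ = ι (C W.a₄) * l ^ 2 := rfl
  have ha6 : (tw K W).a₆ = ι (C W.a₆) * l ^ 3 := rfl
  rw [ha2, ha4, ha6] at e0 e1
  have hκe : κ * (l ^ 2 * (k₁ * k₂)) = c * c₁ ^ 2 := by
    rw [hκ]
    exact div_mul_cancel₀ _ (mul_ne_zero (pow_ne_zero 2 hl) (mul_ne_zero hk₁ hk₂))
  have E0 : ι (T0 (C W.a₂) (C W.a₄) (C W.a₆) f g X 1) = κ * ι (f₁ * f₂) := by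
    have m0 : ι (T0 (C W.a₂) (C W.a₄) (C W.a₆) f g X 1) * l ^ 4 =
        c₁ ^ 2 * T0 (ι (C W.a₂) * l) (ι (C W.a₄) * l ^ 2) (ι (C W.a₆) * l ^ 3) (P.xRep 0)
          (P.xRep 1) (ι X * l) 1 := by
      have hP0 : P.xRep 0 = ι f * l / c₁ := by rw [hf]; field_simp
      have hP1 : P.xRep 1 = ι g / c₁ := by rw [hg]; field_simp
      rw [hP0, hP1]
      simp only [T0, map_sub, map_mul, map_pow, map_add, map_ofNat, map_one]
      field_simp
    rw [e0] at m0
    have hp1 : (P + Q).xRep 0 = ι f₁ * l / k₁ := by rw [hf₁]; field_simp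
    have hp2 : (P - Q).xRep 0 = ι f₂ * l / k₂ := by rw [hf₂]; field_simp
    rw [hp1, hp2] at m0
    apply mul_right_cancel₀ (pow_ne_zero 4 hl)
    apply mul_right_cancel₀ (mul_ne_zero hk₁ hk₂)
    rw [m0, map_mul]
    field_simp
    linear_combination (-(ι f₁ * ι f₂)) * hκe
  have E1 : ι (T1 (C W.a₂) (C W.a₄) (C W.a₆) f g X 1) = κ * ι (f₁ * g₂ + f₂ * g₁) := by
    have m0 : ι (T1 (C W.a₂) (C W.a₄) (C W.a₆) f g X 1) * l ^ 3 =
        c₁ ^ 2 * T1 (ι (C W.a₂) * l) (ι (C W.a₄) * l ^ 2) (ι (C W.a₆) * l ^ 3) (P.xRep 0)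
          (P.xRep 1) (ι X * l) 1 := by
      have hP0 : P.xRep 0 = ι f * l / c₁ := by rw [hf]; field_simp
      have hP1 : P.xRep 1 = ι g / c₁ := by rw [hg]; field_simp
      rw [hP0, hP1]
      simp only [T1, map_sub, map_mul, map_pow, map_add, map_ofNat, map_one]
      field_simp
    rw [e1] at m0
    have hp1 : (P + Q).xRep 0 = ι f₁ * l / k₁ := by rw [hf₁]; field_simp
    have hp2 : (P - Q).xRep 0 = ι f₂ * l / k₂ := by rw [hf₂]; field_simp
    have hq1 : (P + Q).xRep 1 = ι g₁ / k₁ := by rw [hg₁]; field_simp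
    have hq2 : (P - Q).xRep 1 = ι g₂ / k₂ := by rw [hg₂]; field_simp
    rw [hp1, hp2, hq1, hq2] at m0
    apply mul_right_cancel₀ (pow_ne_zero 3 hl)
    apply mul_right_cancel₀ (mul_ne_zero hk₁ hk₂)
    rw [m0, map_add, map_mul, map_mul]
    field_simp
    linear_combination (-(ι f₁ * ι g₂ + ι f₂ * ι g₁)) * hκe
  have E2 : ι (T2 f g X 1) = κ * ι (g₁ * g₂) := by
    have m0 : ι (T2 f g X 1) * l ^ 2 = c₁ ^ 2 * T2 (P.xRep 0) (P.xRep 1) (ι X * l) 1 := by
      have hP0 : P.xRep 0 = ι f * l / c₁ := by rw [hf]; field_simp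
      have hP1 : P.xRep 1 = ι g / c₁ := by rw [hg]; field_simp
      rw [hP0, hP1]
      simp only [T2, map_sub, map_mul, map_pow, map_one]
      field_simp
    rw [e2] at m0
    have hq1 : (P + Q).xRep 1 = ι g₁ / k₁ := by rw [hg₁]; field_simp
    have hq2 : (P - Q).xRep 1 = ι g₂ / k₂ := by rw [hg₂]; field_simp
    rw [hq1, hq2] at m0
    apply mul_right_cancel₀ (pow_ne_zero 2 hl)
    apply mul_right_cancel₀ (mul_ne_zero hk₁ hk₂)
    rw [m0, map_mul]
    field_simp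
    linear_combination (-(ι g₁ * ι g₂)) * hκe
  obtain ⟨x, hx, t0, t1, t2⟩ := uni_scale (uni_T h1 h3 hcop) (uni_prod hcop₁ hcop₂) E0 E1 E2
  obtain ⟨r1, r2, r3⟩ := deg_step hd hdeg hx t0 t1 t2
  exact ⟨_, _, ⟨f₁, g₁, hr₁, r1, rfl⟩, ⟨f₂, g₂, hr₂, r2, rfl⟩, r3⟩

end Pool.Agent.Lib.MP_bf61d2_nt
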