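import Mathlib
import Pool.Agent.Lib.MP_bf61d2_nt.Trim.Twist
import Pool.Agent.Lib.MP_bf61d2_nt.Trim.XCoord

set_option autoImplicit false

/-!
The starting values of the degree function and the point count.
-/

namespace WeierstrassCurve
end WeierstrassCurve

namespace Pool.Agent.Lib.MP_bf61d2_nt

open WeierstrassCurve WeierstrassCurve.Affine Polynomial

variable {F : Type*} [Field F] [Fintype F] [DecidableEq F]

/-- Points where the cubic to the power `m` takes the value `c`. -/
noncomputable def valSet (W : WeierstrassCurve F) (m : ℕ) (c : F) : Finset F :=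
  Finset.univ.filter fun α => (cub W).eval α ^ m = c

/-- The polynomial with the given simple roots. -/
noncomputable def rootPoly (s : Finset F) : F[X] := ∏ α ∈ s, (X - C α)

omit [Fintype F] [DecidableEq F] in
lemma rootPoly_monic (s : Finset F) : (rootPoly s).Monic :=
  monic_prod_of_monic _ _ fun α _ => monic_X_sub_C α

omit [Fintype F] [DecidableEq F] in
lemma natDegree_rootPoly (s : Finset F) : (rootPoly s).natDegree = s.card := by
  rw [rootPoly, natDegree_prod_of_monic _ _ fun α _ => monic_X_sub_C α]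
  simp

omit [Fintype F] in
lemma rootPoly_union {s t : Finset F} (h : Disjoint s t) :
    rootPoly (s ∪ t) = rootPoly s * rootPoly t := by
  rw [rootPoly, Finset.prod_union h]; rfl

omit [Fintype F] [DecidableEq F] in
lemma rootPoly_dvd {s : Finset F} {p : F[X]} (h : ∀ α ∈ s, p.eval α = 0) : rootPoly s ∣ p := by
  refine Finset.prod_dvd_of_coprime ?_ fun α hα => dvd_iff_isRoot.mpr (h α hα)
  intro α _ β _ hne
  exact isCoprime_X_sub_C_of_isUnit_sub (sub_ne_zero.mpr hne).isUnit

omit [DecidableEq F] in
lemma rootPoly_univ : rootPoly (Finset.univ : Finset F) = X ^ Fintype.card F - X := by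
  have h1 := FiniteField.roots_X_pow_card_sub_X F
  have h2 := FiniteField.X_pow_card_sub_X_natDegree_eq F (Fintype.one_lt_card (α := F))
  have hmon : (X ^ Fintype.card F - X : F[X]).Monic :=
    monic_X_pow_sub (by rw [degree_X]; exact_mod_cast Fintype.one_lt_card (α := F))
  have h3 := prod_multiset_X_sub_C_of_monic_of_roots_card_eq hmon (by rw [h1, h2]; rfl)
  rw [h1] at h3
  exact h3

variable {W : WeierstrassCurve F}

omit [Fintype F] [DecidableEq F] in
lemma eval_cub (α : F) : (cub W).eval α = α ^ 3 + W.a₂ * α ^ 2 + W.a₄ * α + W.a₆ := by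
  simp [cub]

omit [Fintype F] [DecidableEq F] in
/-- The cubic has no double roots. -/
lemma not_sq_dvd (hell : W.IsElliptic) (h1 : W.a₁ = 0) (h3 : W.a₃ = 0) (α : F) :
    ¬ (X - C α) ^ 2 ∣ cub W := by
  rintro ⟨r, hr⟩
  have e1 : (cub W).eval α = 0 := by rw [hr]; simp
  have e2 : (cub W).derivative.eval α = 0 := by
    rw [hr, derivative_mul]
    simp [derivative_pow]
  rw [eval_cub] at e1
  have heq : W.toAffine.Equation α 0 := by
    rw [eqn_iff h1 h3, e1]; ring
  have hns := (nonsingular_iff α 0).mp (equation_iff_nonsingular.mp heq)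
  rw [h1, h3] at hns
  have e3 : 3 * α ^ 2 + 2 * W.a₂ * α + W.a₄ = 0 := by
    rw [← e2, cub]
    simp
    ring
  rcases hns.2 with h | h
  · apply h
    rw [zero_mul]
    exact e3.symm
  · exact h (by ring)

omit [DecidableEq F] in
lemma cub_pow_card : cub W ^ Fintype.card F = X ^ (3 * Fintype.card F) +
    C W.a₂ * X ^ (2 * Fintype.card F) + C W.a₄ * X ^ Fintype.card F + C W.a₆ := by
  rw [← FiniteField.expand_card, cub]
  simp only [map_add, map_mul, map_pow, expand_X, expand_C, ← pow_mul]
  ring

/-- The numerator. -/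
noncomputable def num (W : WeierstrassCurve F) (m : ℕ) : F[X] :=
  cub W * (cub W ^ m + 1) ^ 2 - (C W.a₂ + X ^ Fintype.card F + X) * (X ^ Fintype.card F - X) ^ 2

omit [Fintype F] [DecidableEq F] in
lemma natDegree_cub : (cub W).natDegree = 3 := by
  rw [cub]
  compute_degree!

omit [DecidableEq F] in
lemma natDegree_num {m : ℕ} (hm : Fintype.card F = 2 * m + 1) (hm1 : 1 ≤ m) :
    (num W m).natDegree = 2 * Fintype.card F + 1 := by
  set q := Fintype.card F with hq
  have e : num W m = X ^ (2 * q + 1) + (X ^ (q + 2) + C (2 * W.a₂) * X ^ (q + 1) +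
      C W.a₄ * X ^ q + (C W.a₄ * X + C (2 * W.a₆)) + 2 * cub W ^ (m + 1)) := by
    have h1 : cub W * (cub W ^ m + 1) ^ 2 = cub W ^ q + 2 * cub W ^ (m + 1) + cub W := by
      rw [hm]; ring
    rw [num, h1, cub_pow_card, cub]
    simp only [map_mul, map_ofNat]
    ring
  have hrest : (X ^ (q + 2) + C (2 * W.a₂) * X ^ (q + 1) +
      C W.a₄ * X ^ q + (C W.a₄ * X + C (2 * W.a₆)) + 2 * cub W ^ (m + 1) : F[X]).natDegree ≤
      2 * q := by
    have ha : ∀ {p r : F[X]} {k : ℕ}, p.natDegree ≤ k → r.natDegree ≤ k →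
      (p + r).natDegree ≤ k := fun hp hq => natDegree_add_le_of_degree_le hp hq
    refine ha (ha (ha (ha ?_ ?_) ?_) (ha ?_ ?_)) ?_
    · rw [natDegree_X_pow]; omega
    · exact (natDegree_C_mul_X_pow_le _ _).trans (by omega)
    · exact (natDegree_C_mul_X_pow_le _ _).trans (by omega)
    · exact (natDegree_C_mul_le _ _).trans (by rw [natDegree_X]; omega)
    · rw [natDegree_C]; omega
    · have h2 : ((2 : F[X])).natDegree ≤ 0 := by rw [natDegree_ofNat]
      have h3 : (cub W ^ (m + 1)).natDegree ≤ (m + 1) * 3 :=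
        natDegree_pow_le_of_le (m + 1) (by rw [natDegree_cub])
      exact (natDegree_mul_le_of_le h2 h3).trans (by omega)
  rw [e, natDegree_add_eq_left_of_natDegree_lt]
  · rw [natDegree_X_pow]
  · rw [natDegree_X_pow]; omega

variable (hell : W.IsElliptic) (h1 : W.a₁ = 0) (h3 : W.a₃ = 0) (h2 : (2 : F) ≠ 0)

include hell h1 h3 h2

/-- Reduction of the numerator and denominator to lowest terms. -/
lemma exists_lowest {m : ℕ} (hm : Fintype.card F = 2 * m + 1) (hm1 : 1 ≤ m) :
    ∃ G M H : F[X], G ≠ 0 ∧ num W m = G * M ∧ (X ^ Fintype.card F - X) ^ 2 = G * H ∧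
      IsCoprime M H ∧ M.natDegree = 1 + (valSet W m 0).card + 2 * (valSet W m 1).card ∧
      H.degree < M.degree := by
  set q := Fintype.card F with hq
  have h11 : (1 : F) ≠ -1 := by
    intro h; apply h2
    have : (2 : F) = 1 - -1 := by ring
    rw [this, ← h]; ring
  set S0 := valSet W m 0 with hS0
  set S1 := valSet W m 1 with hS1
  set Sm := valSet W m (-1) with hSm
  have mem0 : ∀ α, α ∈ S0 ↔ (cub W).eval α = 0 := fun α => by
    rw [hS0, valSet, Finset.mem_filter]
    simp only [Finset.mem_univ, true_and]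
    exact pow_eq_zero_iff (by omega)
  have mem1 : ∀ α, α ∈ S1 ↔ (cub W).eval α ^ m = 1 := fun α => by
    rw [hS1, valSet, Finset.mem_filter]; simp
  have memm : ∀ α, α ∈ Sm ↔ (cub W).eval α ^ m = -1 := fun α => by
    rw [hSm, valSet, Finset.mem_filter]; simp
  have d01 : Disjoint S0 S1 := by
    rw [Finset.disjoint_left]
    intro α ha hb
    rw [mem0] at ha
    rw [mem1, ha, zero_pow (by omega)] at hb
    exact zero_ne_one hb
  have d01m : Disjoint (S0 ∪ S1) Sm := by
    rw [Finset.disjoint_left]
    intro α ha hb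
    rw [memm] at hb
    rcases Finset.mem_union.mp ha with h | h
    · rw [mem0] at h
      rw [h, zero_pow (by omega)] at hb
      have : (1 : F) = 0 := by linear_combination hb
      exact one_ne_zero this
    · rw [mem1] at h
      exact h11 (by rw [← hb, h])
  have hunion : (S0 ∪ S1) ∪ Sm = Finset.univ := by
    ext α
    simp only [Finset.mem_union, Finset.mem_univ, iff_true]
    by_cases h0 : (cub W).eval α = 0
    · exact Or.inl (Or.inl ((mem0 α).mpr h0))
    · have h5 : ((cub W).eval α) ^ (q - 1) = 1 := FiniteField.pow_card_sub_one_eq_one _ h0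
      have h6 : (((cub W).eval α) ^ m - 1) * (((cub W).eval α) ^ m + 1) = 0 := by
        have : q - 1 = m + m := by omega
        rw [this, pow_add] at h5
        linear_combination h5
      rcases mul_eq_zero.mp h6 with h | h
      · exact Or.inl (Or.inr ((mem1 α).mpr (sub_eq_zero.mp h)))
      · exact Or.inr ((memm α).mpr (eq_neg_of_add_eq_zero_left h))
  have hcard : S0.card + S1.card + Sm.card = q := by
    rw [← Finset.card_union_of_disjoint d01, ← Finset.card_union_of_disjoint d01m, hunion,
      Finset.card_univ]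
  have hD : (X ^ q - X : F[X]) = rootPoly S0 * rootPoly S1 * rootPoly Sm := by
    rw [← rootPoly_union d01, ← rootPoly_union d01m, hunion, rootPoly_univ]
  have hG0 : rootPoly S0 * rootPoly Sm ^ 2 ≠ 0 :=
    mul_ne_zero (rootPoly_monic _).ne_zero (pow_ne_zero 2 (rootPoly_monic _).ne_zero)
  have hDG : (X ^ q - X : F[X]) ^ 2 =
      (rootPoly S0 * rootPoly Sm ^ 2) * (rootPoly S0 * rootPoly S1 ^ 2) := by
    rw [hD]; ring
  have hdvd1 : rootPoly S0 * rootPoly Sm ^ 2 ∣ cub W * (cub W ^ m + 1) ^ 2 := by
    refine mul_dvd_mul (rootPoly_dvd fun α hα => (mem0 α).mp hα) (pow_dvd_pow_of_dvd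
      (rootPoly_dvd fun α hα => ?_) 2)
    rw [eval_add, eval_pow, (memm α).mp hα]; simp
  have hdvd : rootPoly S0 * rootPoly Sm ^ 2 ∣ num W m := by
    rw [num]
    exact dvd_sub hdvd1 (Dvd.dvd.mul_left ⟨_, hDG⟩ _)
  obtain ⟨M, hM⟩ := hdvd
  have hdegnum := natDegree_num (W := W) hm hm1
  have hM0 : M ≠ 0 := by
    rintro rfl
    rw [mul_zero] at hM
    rw [hM] at hdegnum
    simp at hdegnum
  have hdegG : (rootPoly S0 * rootPoly Sm ^ 2).natDegree = S0.card + 2 * Sm.card := by
    rw [(rootPoly_monic _).natDegree_mul ((rootPoly_monic _).pow 2), natDegree_rootPoly,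
      (rootPoly_monic _).natDegree_pow, natDegree_rootPoly]
  have hdegM : M.natDegree = 1 + S0.card + 2 * S1.card := by
    have := hdegnum
    rw [hM, natDegree_mul hG0 hM0, hdegG] at this
    omega
  refine ⟨rootPoly S0 * rootPoly Sm ^ 2, M, rootPoly S0 * rootPoly S1 ^ 2, hG0, hM, hDG, ?_,
    hdegM, ?_⟩
  · -- coprimality
    have hD0 : ∀ α : F, (X ^ q - X : F[X]).eval α = 0 := fun α => by
      rw [eval_sub, eval_pow, eval_X, FiniteField.pow_card, sub_self]
    have hcop : ∀ α ∈ S0 ∪ S1, IsCoprime M (X - C α) := by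
      intro α hα
      rw [isCoprime_comm, (irreducible_X_sub_C α).coprime_iff_not_dvd]
      intro hdv
      rcases Finset.mem_union.mp hα with h | h
      · -- root of the cubic
        have hr0 := (mem0 α).mp h
        have hdvG : (X - C α) ∣ rootPoly S0 * rootPoly Sm ^ 2 :=
          Dvd.dvd.mul_right (Finset.dvd_prod_of_mem _ h) _
        have h5 : (X - C α) ^ 2 ∣ num W m := by
          rw [hM, pow_two]
          exact mul_dvd_mul hdvG hdv
        have h6 : (X - C α) ^ 2 ∣ (X ^ q - X : F[X]) ^ 2 :=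
          pow_dvd_pow_of_dvd (dvd_iff_isRoot.mpr (hD0 α)) 2
        have h7 : (X - C α) ^ 2 ∣ cub W * (cub W ^ m + 1) ^ 2 := by
          have h8 : cub W * (cub W ^ m + 1) ^ 2 = num W m +
              (C W.a₂ + X ^ q + X) * (X ^ q - X) ^ 2 := by
            rw [num]; ring
          rw [h8]
          exact dvd_add h5 (Dvd.dvd.mul_left h6 _)
        have h9 : IsCoprime (X - C α) (cub W ^ m + 1) := by
          rw [(irreducible_X_sub_C α).coprime_iff_not_dvd, dvd_iff_isRoot, IsRoot.def, eval_add,
            eval_pow, hr0, zero_pow (by omega)]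
          simp
        exact not_sq_dvd hell h1 h3 α ((h9.pow (m := 2) (n := 2)).dvd_of_dvd_mul_right h7)
      · have hr1 := (mem1 α).mp h
        have h5 : (num W m).eval α = 0 := by
          rw [hM, eval_mul, dvd_iff_isRoot.mp hdv, mul_zero]
        rw [num, eval_sub, eval_mul, eval_mul, eval_pow, eval_pow, eval_add, eval_pow, hr1,
          hD0 α, eval_one] at h5
        have h6 : (cub W).eval α ≠ 0 := by
          intro h0
          rw [h0, zero_pow (by omega)] at hr1
          exact zero_ne_one hr1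
        have h7 : (cub W).eval α * (2 * 2) = 0 := by linear_combination h5
        exact (mul_ne_zero h6 (mul_ne_zero h2 h2)) h7
    refine IsCoprime.mul_right ?_ (IsCoprime.pow_right ?_)
    · exact IsCoprime.prod_right fun α hα => hcop α (Finset.mem_union_left _ hα)
    · exact IsCoprime.prod_right fun α hα => hcop α (Finset.mem_union_right _ hα)
  · apply degree_lt_degree
    rw [hdegM, (rootPoly_monic _).natDegree_mul ((rootPoly_monic _).pow 2), natDegree_rootPoly,
      (rootPoly_monic _).natDegree_pow, natDegree_rootPoly]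
    omega

end Pool.Agent.Lib.MP_bf61d2_nt
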