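import Mathlib
import Pool.Agent.Lib.MP_bf61d2_nt.Trim.Count
import Pool.Agent.Lib.MP_bf61d2_nt.Trim.Twist
import Pool.Agent.Lib.MP_bf61d2_nt.Trim.XCoord

set_option autoImplicit false

/-!
The Hasse bound for `y² = x³ + a₂x² + a₄x + a₆` over a finite field of odd order.
-/

namespace WeierstrassCurve
end WeierstrassCurve

namespace Pool.Agent.Lib.MP_bf61d2_nt

open WeierstrassCurve WeierstrassCurve.Affine Polynomial

/-- A sequence with constant second difference 2 is a monic quadratic polynomial. -/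
lemma quadratic_of_second_diff {d : ℤ → ℤ} (h : ∀ n, d (n + 1) + d (n - 1) = 2 * d n + 2) (n : ℤ) :
    d n = n ^ 2 + n * (d 0 - d (-1) + 1) + d 0 := by
  have key : ∀ k : ℕ, (d k = (k : ℤ) ^ 2 + k * (d 0 - d (-1) + 1) + d 0 ∧
      d ((k : ℤ) - 1) = ((k : ℤ) - 1) ^ 2 + ((k : ℤ) - 1) * (d 0 - d (-1) + 1) + d 0) := by
    intro k
    induction k with
    | zero => constructor <;> simp
    | succ k ih =>
      obtain ⟨i1, i2⟩ := ih
      have h1 := h k
      push_cast
      constructor
      · linear_combination h1 + 2 * i1 - i2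
      · rw [show (k : ℤ) + 1 - 1 = k by ring]
        linear_combination i1
  have key' : ∀ k : ℕ, (d (-(k : ℤ)) = (-(k : ℤ)) ^ 2 + (-(k : ℤ)) * (d 0 - d (-1) + 1) + d 0 ∧
      d (-(k : ℤ) - 1) = (-(k : ℤ) - 1) ^ 2 + (-(k : ℤ) - 1) * (d 0 - d (-1) + 1) + d 0) := by
    intro k
    induction k with
    | zero => constructor <;> simp
    | succ k ih =>
      obtain ⟨i1, i2⟩ := ih
      have h1 := h (-(k : ℤ) - 1)
      push_cast
      rw [show -(k : ℤ) - 1 + 1 = -(k : ℤ) by ring] at h1
      rw [show -((k : ℤ) + 1) = -(k : ℤ) - 1 by ring]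
      exact ⟨i2, by linear_combination h1 + 2 * i2 - i1⟩
  rcases le_total 0 n with hn | hn
  · obtain ⟨k, rfl⟩ := Int.eq_ofNat_of_zero_le hn
    exact (key k).1
  · obtain ⟨k, hk⟩ := Int.eq_ofNat_of_zero_le (neg_nonneg.mpr hn)
    have hnk : n = -(k : ℤ) := by omega
    rw [hnk]
    exact (key' k).1

/-- A quadratic polynomial, nonnegative on the integers, with odd constant term. -/
lemma sq_le_of_nonneg {a q : ℤ} (hq : Odd q) (h : ∀ n : ℤ, 0 ≤ n ^ 2 + n * a + q) :
    a ^ 2 ≤ 4 * q := by
  rcases Int.even_or_odd' a with ⟨b, rfl | rfl⟩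
  · have := h (-b)
    nlinarith
  · have h1 := h (-b)
    have h2 : q ≠ b ^ 2 + b := by
      intro h3
      have h4 : Even (b ^ 2 + b) := by
        have : b ^ 2 + b = b * (b + 1) := by ring
        rw [this]
        exact Int.even_mul_succ_self b
      rw [← h3] at h4
      exact (Int.not_even_iff_odd.mpr hq) h4
    have h3 : b ^ 2 + b ≤ q := by nlinarith
    have h4 : b ^ 2 + b + 1 ≤ q := by
      rcases lt_or_eq_of_le h3 with h5 | h5
      · linarith
      · exact absurd h5.symm h2
    nlinarith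

variable {F : Type*} [Field F] [Fintype F] [DecidableEq F] {W : WeierstrassCurve F}

variable (hell : W.IsElliptic) (h1 : W.a₁ = 0) (h3 : W.a₃ = 0) (h2 : (2 : F) ≠ 0)

omit [Fintype F] [DecidableEq F] in
lemma eqn_tw {K : Type*} [Field K] [Algebra F[X] K] (x y : K) :
    (tw K W).toAffine.Equation x y ↔ y ^ 2 = x ^ 3 +
      algebraMap F[X] K (C W.a₂) * algebraMap F[X] K (cub W) * x ^ 2 +
      algebraMap F[X] K (C W.a₄) * algebraMap F[X] K (cub W) ^ 2 * x +
      algebraMap F[X] K (C W.a₆) * algebraMap F[X] K (cub W) ^ 3 :=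
  eqn_iff (V := tw K W) rfl rfl x y

include hell h1 h3 h2 in
theorem hasse_aux {m : ℕ} (hm : Fintype.card F = 2 * m + 1) (hm1 : 1 ≤ m) :
    ((Fintype.card F : ℤ) + 1 - (1 + (valSet W m 0).card + 2 * (valSet W m 1).card : ℕ)) ^ 2 ≤
      4 * Fintype.card F := by
  classical
  set q := Fintype.card F with hq
  let K := FractionRing F[X]
  set ι := algebraMap F[X] K with hι
  have hl : ι (cub W) ≠ 0 := map_cub_ne_zero
  have hnsg := fun x y => nonsing_iff (K := K) hell h1 h3 x y
  -- the tautological point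
  have hQ : (tw K W).toAffine.Nonsingular (ι X * ι (cub W)) (ι (cub W) ^ 2) := by
    rw [hnsg, eqn_tw]
    have e : ι (cub W) = ι X ^ 3 + ι (C W.a₂) * ι X ^ 2 + ι (C W.a₄) * ι X + ι (C W.a₆) := by
      rw [cub]; simp only [map_add, map_mul, map_pow]
    linear_combination (ι (cub W) ^ 3) * e
  have hP : (tw K W).toAffine.Nonsingular (ι X ^ q * ι (cub W)) (ι (cub W) ^ (m + 2)) := by
    rw [hnsg, eqn_tw]
    have e := congrArg ι (cub_pow_card (W := W))
    rw [← hq] at e
    simp only [map_add, map_mul, map_pow] at e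
    have e2 : (ι (cub W) ^ (m + 2)) ^ 2 = ι (cub W) ^ 3 * ι (cub W) ^ q := by
      rw [hm]; ring
    have e3 : ι X ^ (3 * q) = (ι X ^ q) ^ 3 := by rw [← pow_mul, mul_comm]
    have e4 : ι X ^ (2 * q) = (ι X ^ q) ^ 2 := by rw [← pow_mul, mul_comm]
    rw [e2, e, e3, e4]
    ring
  set Q : (tw K W).toAffine.Point := Point.some _ _ hQ with hQdef
  set P₀ : (tw K W).toAffine.Point := Point.some _ _ hP with hPdef
  have hQ0 : Q.xRep 0 = ι X * ι (cub W) := by rw [hQdef, Point.xRep_some]; simp
  have hQ1 : Q.xRep 1 = 1 := by rw [hQdef, Point.xRep_some]; simp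
  have hq1 : 1 < q := Fintype.one_lt_card
  -- the point P₀
  have hg0 : Good P₀ q := by
    refine ⟨X ^ q, 1, ⟨isCoprime_one_right, 1, one_ne_zero, ?_, ?_⟩, ?_, natDegree_X_pow q⟩
    · rw [hPdef, Point.xRep_some]
      simp only [Matrix.cons_val_zero, map_pow, one_mul]
      rfl
    · rw [hPdef, Point.xRep_some]; simp
    · rw [degree_one, degree_X_pow]
      exact_mod_cast (by omega : 0 < q)
  -- the point P₀ - Q
  have hgm : Good (P₀ - Q) (1 + (valSet W m 0).card + 2 * (valSet W m 1).card) := by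
    obtain ⟨G, M, H, hG0, hGM, hGH, hcop, hdeg, hlt⟩ := exists_lowest hell h1 h3 h2 hm hm1
    have hXq : ι X ^ q - ι X ≠ 0 := by
      have e : ι X ^ q - ι X = ι (X ^ q - X) := by rw [map_sub, map_pow]
      rw [e, Ne, FaithfulSMul.algebraMap_eq_zero_iff]
      exact FiniteField.X_pow_card_sub_X_ne_zero F hq1
    have hne : ι X ^ q * ι (cub W) ≠ ι X * ι (cub W) := by
      intro h
      exact hXq (sub_eq_zero.mpr (mul_right_cancel₀ hl h))
    have hH0 : ι H ≠ 0 := by
      rw [Ne, FaithfulSMul.algebraMap_eq_zero_iff]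
      rintro rfl
      rw [mul_zero] at hGH
      exact FiniteField.X_pow_card_sub_X_ne_zero F hq1 (pow_eq_zero_iff (two_ne_zero) |>.mp hGH)
    have hG0' : ι G ≠ 0 := by
      rwa [Ne, FaithfulSMul.algebraMap_eq_zero_iff]
    refine ⟨M, H, ⟨hcop, ι H, hH0, ?_, ?_⟩, hlt, hdeg⟩
    · rw [sub_eq_add_neg, hQdef, hPdef, Point.neg_some, Point.add_of_X_ne hne, Point.xRep_some]
      simp only [Matrix.cons_val_zero]
      rw [addX, slope_of_X_ne hne, negY]
      have ha1 : (tw K W).toAffine.a₁ = 0 := rfl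
      have ha2 : (tw K W).toAffine.a₂ = ι (C W.a₂) * ι (cub W) := rfl
      have ha3 : (tw K W).toAffine.a₃ = 0 := rfl
      rw [ha1, ha2, ha3]
      obtain ⟨s, hs⟩ : ∃ s, s = (ι (cub W) ^ (m + 2) - (-ι (cub W) ^ 2 - 0 *
        (ι X * ι (cub W)) - 0)) / (ι X ^ q * ι (cub W) - ι X * ι (cub W)) := ⟨_, rfl⟩
      rw [← hs]
      rw [eq_div_iff (sub_ne_zero.mpr hne)] at hs
      have hs1 : s * (ι X ^ q - ι X) = ι (cub W) * (ι (cub W) ^ m + 1) := by
        apply mul_right_cancel₀ hl
        linear_combination hs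
      have e1 := congrArg ι hGM
      have e2 := congrArg ι hGH
      rw [num, ← hq] at e1
      simp only [map_sub, map_add, map_mul, map_pow, map_one] at e1 e2
      apply mul_left_cancel₀ hG0'
      have e3 : ι G * (ι M * ι (cub W)) = ι (cub W) * (ι G * ι M) := by ring
      have e4 : ι G * (ι H * (s ^ 2 + 0 * s - ι (C W.a₂) * ι (cub W) - ι X ^ q * ι (cub W) -
          ι X * ι (cub W))) = (ι G * ι H) * (s ^ 2 + 0 * s - ι (C W.a₂) * ι (cub W) -
          ι X ^ q * ι (cub W) - ι X * ι (cub W)) := by ring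
      rw [e3, e4, ← e1, ← e2]
      have e5 : (ι X ^ q - ι X) ^ 2 * s ^ 2 = (ι (cub W) * (ι (cub W) ^ m + 1)) ^ 2 := by
        rw [← hs1]; ring
      linear_combination (-1 : K) * e5
    · rw [sub_eq_add_neg, hQdef, hPdef, Point.neg_some, Point.add_of_X_ne hne, Point.xRep_some]
      simp
      rfl
  -- all multiples
  have hall : ∀ n : ℤ, ∃ d, Good (P₀ + n • Q) d := by
    have hstep := fun (P : (tw K W).toAffine.Point) (d : ℕ) (h : Good P d) =>
      good_step hell h1 h3 h2 hQ0 hQ1 h
    intro n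
    induction n using Int.induction_on with
    | zero => exact ⟨q, by simpa using hg0⟩
    | succ n ih =>
      obtain ⟨d, hd⟩ := ih
      obtain ⟨d₁, d₂, hd₁, -, -⟩ := hstep _ _ hd
      exact ⟨d₁, by rwa [add_zsmul, one_zsmul, ← add_assoc]⟩
    | pred n ih =>
      obtain ⟨d, hd⟩ := ih
      obtain ⟨d₁, d₂, -, hd₂, -⟩ := hstep _ _ hd
      exact ⟨d₂, by rwa [sub_zsmul, one_zsmul, ← add_assoc, ← sub_eq_add_neg]⟩
  choose d hd using hall
  have hd0 : d 0 = q := (hd 0).unique (by simpa using hg0)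
  have hdm : d (-1) = 1 + (valSet W m 0).card + 2 * (valSet W m 1).card :=
    (hd (-1)).unique (by rw [neg_one_zsmul, ← sub_eq_add_neg]; exact hgm)
  have hrec : ∀ n : ℤ, ((d (n + 1) : ℤ)) + d (n - 1) = 2 * d n + 2 := by
    intro n
    obtain ⟨d₁, d₂, hd₁, hd₂, hsum⟩ := good_step hell h1 h3 h2 hQ0 hQ1 (hd n)
    have e1 : d (n + 1) = d₁ := by
      apply (hd (n + 1)).unique
      rwa [add_zsmul, one_zsmul, ← add_assoc]
    have e2 : d (n - 1) = d₂ := by
      apply (hd (n - 1)).unique
      rwa [sub_zsmul, one_zsmul, ← add_assoc, ← sub_eq_add_neg]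
    rw [e1, e2]
    exact_mod_cast hsum
  have hquad := quadratic_of_second_diff (d := fun n => (d n : ℤ)) hrec
  have hodd : Odd (q : ℤ) := ⟨m, by rw [hm]; push_cast; ring⟩
  have hnn : ∀ n : ℤ, 0 ≤ n ^ 2 + n * ((q : ℤ) + 1 -
      (1 + (valSet W m 0).card + 2 * (valSet W m 1).card : ℕ)) + q := by
    intro n
    have h5 := hquad n
    rw [hd0, hdm] at h5
    have h6 : (0 : ℤ) ≤ d n := Int.natCast_nonneg _
    rw [h5] at h6
    linarith
  exact sq_le_of_nonneg hodd hnn

/-- Number of square roots. -/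
lemma card_sqrt (h2 : (2 : F) ≠ 0) {m : ℕ} (hm : Fintype.card F = 2 * m + 1) (hm1 : 1 ≤ m) (c : F) :
    (Finset.univ.filter fun y : F => y ^ 2 = c).card =
      (if c ^ m = 0 then 1 else 0) + 2 * (if c ^ m = 1 then 1 else 0) := by
  by_cases hc : c = 0
  · subst hc
    rw [zero_pow (by omega), if_pos rfl, if_neg zero_ne_one]
    have : (Finset.univ.filter fun y : F => y ^ 2 = 0) = {0} := by
      ext y; simp
    rw [this]; simp
  · have hcm : c ^ m ≠ 0 := pow_ne_zero _ hc
    rw [if_neg hcm, zero_add]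
    have hchar : ringChar F ≠ 2 := by
      intro h
      apply h2
      have := ringChar.spec F 2
      rw [h] at this
      exact_mod_cast this.mpr dvd_rfl
    have hdiv : Fintype.card F / 2 = m := by omega
    have hiff := FiniteField.isSquare_iff hchar hc
    rw [hdiv] at hiff
    by_cases h1 : c ^ m = 1
    · rw [if_pos h1]
      obtain ⟨r, hr⟩ := hiff.mpr h1
      have hr0 : r ≠ 0 := by rintro rfl; apply hc; rw [hr]; ring
      have hne : r ≠ -r := by
        intro h
        have : 2 * r = 0 := by linear_combination h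
        rcases mul_eq_zero.mp this with h' | h'
        · exact h2 h'
        · exact hr0 h'
      have : (Finset.univ.filter fun y : F => y ^ 2 = c) = {r, -r} := by
        ext y
        simp only [Finset.mem_filter, Finset.mem_univ, true_and, Finset.mem_insert,
          Finset.mem_singleton]
        rw [hr, ← pow_two]
        exact sq_eq_sq_iff_eq_or_eq_neg
      rw [this, Finset.card_pair hne]
    · rw [if_neg h1]
      have : (Finset.univ.filter fun y : F => y ^ 2 = c) = ∅ := by
        ext y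
        simp only [Finset.mem_filter, Finset.mem_univ, true_and, Finset.notMem_empty, iff_false]
        intro hy
        exact h1 (hiff.mp ⟨y, by rw [← hy]; ring⟩)
      rw [this]; simp

/-- Number of affine solutions of `y² = f(x)`. -/
lemma card_sol (h2 : (2 : F) ≠ 0) {m : ℕ} (hm : Fintype.card F = 2 * m + 1) (hm1 : 1 ≤ m) :
    Fintype.card {p : F × F // p.2 ^ 2 = (cub W).eval p.1} =
      (valSet W m 0).card + 2 * (valSet W m 1).card := by
  rw [Fintype.card_subtype]
  have hcard := Finset.card_eq_sum_card_fiberwise (f := fun p : F × F => p.1)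
    (s := Finset.univ.filter fun p : F × F => p.2 ^ 2 = (cub W).eval p.1)
    (t := Finset.univ) (fun _ _ => Finset.mem_univ _)
  rw [hcard]
  have h5 : ∀ x : F, ((Finset.univ.filter fun p : F × F => p.2 ^ 2 = (cub W).eval p.1).filter
      fun p => p.1 = x).card = (Finset.univ.filter fun y : F => y ^ 2 = (cub W).eval x).card := by
    intro x
    refine Finset.card_bij (fun p _ => p.2) ?_ ?_ ?_
    · intro p hp
      simp only [Finset.mem_filter, Finset.mem_univ, true_and] at hp ⊢
      rw [← hp.2]; exact hp.1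
    · intro p hp p' hp' he
      simp only [Finset.mem_filter, Finset.mem_univ, true_and] at hp hp'
      exact Prod.ext (hp.2.trans hp'.2.symm) he
    · intro y hy
      simp only [Finset.mem_filter, Finset.mem_univ, true_and] at hy
      exact ⟨(x, y), by simpa using hy, rfl⟩
  simp_rw [h5, card_sqrt h2 hm hm1]
  rw [Finset.sum_add_distrib, ← Finset.mul_sum, valSet, valSet, Finset.card_filter,
    Finset.card_filter]

include hell h1 h3 h2 in
/-- The Hasse bound for short equations. -/
theorem hasse_short : ((Fintype.card F : ℤ) + 1 - (Nat.card W.toAffine.Point : ℤ)) ^ 2 ≤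
    4 * Fintype.card F := by
  have hchar : ringChar F ≠ 2 := by
    intro h
    apply h2
    have := ringChar.spec F 2
    rw [h] at this
    exact_mod_cast this.mpr dvd_rfl
  have hodd : Fintype.card F % 2 = 1 := FiniteField.odd_card_of_char_ne_two hchar
  have hq1 : 1 < Fintype.card F := Fintype.one_lt_card
  obtain ⟨m, hm⟩ : ∃ m, Fintype.card F = 2 * m + 1 := ⟨Fintype.card F / 2, by omega⟩
  have hm1 : 1 ≤ m := by omega
  have hN : Nat.card W.toAffine.Point = 1 + (valSet W m 0).card + 2 * (valSet W m 1).card := by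
    have e1 := Nat.card_congr (pointEquiv W.toAffine)
    have e2 : Nat.card (WithZero {xy : F × F // W.toAffine.Equation xy.1 xy.2}) =
        Nat.card {p : F × F // p.2 ^ 2 = (cub W).eval p.1} + 1 := by
      have e3 : Nat.card {xy : F × F // W.toAffine.Equation xy.1 xy.2} =
          Nat.card {p : F × F // p.2 ^ 2 = (cub W).eval p.1} := by
        refine Nat.card_congr (Equiv.subtypeEquivRight fun p => ?_)
        rw [eqn_iff h1 h3, eval_cub]
      rw [← e3]
      exact Finite.card_option
    rw [e1, e2, Nat.card_eq_fintype_card, card_sol h2 hm hm1]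
    ring
  rw [hN]
  exact hasse_aux hell h1 h3 h2 hm hm1

end Pool.Agent.Lib.MP_bf61d2_nt
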