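import Mathlib
import Pool.Agent.Lib.MP_bf61d2_nt.Trim.HasseShort
import Pool.Agent.Lib.MP_bf61d2_nt.Trim.XCoord

set_option autoImplicit false

/-!
The Hasse bound for a general Weierstrass equation in odd characteristic, and the trivial bound.
-/

namespace WeierstrassCurve
end WeierstrassCurve

namespace Pool.Agent.Lib.MP_bf61d2_nt

open WeierstrassCurve WeierstrassCurve.Affine Polynomial

variable {F : Type*} [Field F]

/-- Completing the square. -/
noncomputable def short (W : WeierstrassCurve F) : WeierstrassCurve F :=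
  ⟨0, W.a₂ + W.a₁ ^ 2 / 4, 0, W.a₄ + W.a₁ * W.a₃ / 2, W.a₆ + W.a₃ ^ 2 / 4⟩

lemma short_Δ {W : WeierstrassCurve F} (h2 : (2 : F) ≠ 0) : (short W).Δ = W.Δ := by
  have h4 : (4 : F) ≠ 0 := by
    have : (4 : F) = 2 * 2 := by norm_num
    rw [this]; exact mul_ne_zero h2 h2
  simp only [short, Δ, b₂, b₄, b₆, b₈]
  have e1 : (0 : F) ^ 2 + 4 * (W.a₂ + W.a₁ ^ 2 / 4) = W.a₁ ^ 2 + 4 * W.a₂ := by
    field_simp; ring
  have e2 : 2 * (W.a₄ + W.a₁ * W.a₃ / 2) + 0 * 0 = 2 * W.a₄ + W.a₁ * W.a₃ := by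
    field_simp; ring
  have e3 : (0 : F) ^ 2 + 4 * (W.a₆ + W.a₃ ^ 2 / 4) = W.a₃ ^ 2 + 4 * W.a₆ := by
    field_simp; ring
  rw [e1, e2, e3]
  have e4 : (0 : F) ^ 2 * (W.a₆ + W.a₃ ^ 2 / 4) + 4 * (W.a₂ + W.a₁ ^ 2 / 4) *
      (W.a₆ + W.a₃ ^ 2 / 4) - 0 * 0 * (W.a₄ + W.a₁ * W.a₃ / 2) +
      (W.a₂ + W.a₁ ^ 2 / 4) * 0 ^ 2 - (W.a₄ + W.a₁ * W.a₃ / 2) ^ 2 =
      W.a₁ ^ 2 * W.a₆ + 4 * W.a₂ * W.a₆ - W.a₁ * W.a₃ * W.a₄ + W.a₂ * W.a₃ ^ 2 - W.a₄ ^ 2 := by
    field_simp
    ring
  rw [e4]

lemma equation_short {W : WeierstrassCurve F} (h2 : (2 : F) ≠ 0) (x y : F) :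
    W.toAffine.Equation x y ↔
      (short W).toAffine.Equation x (y + (W.a₁ * x + W.a₃) / 2) := by
  have h4 : (4 : F) ≠ 0 := by
    have : (4 : F) = 2 * 2 := by norm_num
    rw [this]; exact mul_ne_zero h2 h2
  rw [eqn_iff (V := short W) rfl rfl, equation_iff]
  simp only [short]
  have e : (y + (W.a₁ * x + W.a₃) / 2) ^ 2 - (x ^ 3 + (W.a₂ + W.a₁ ^ 2 / 4) * x ^ 2 +
      (W.a₄ + W.a₁ * W.a₃ / 2) * x + (W.a₆ + W.a₃ ^ 2 / 4)) =
      (y ^ 2 + W.a₁ * x * y + W.a₃ * y) - (x ^ 3 + W.a₂ * x ^ 2 + W.a₄ * x + W.a₆) := by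
    have : (4 : F) = 2 * 2 := by norm_num
    field_simp
    rw [this]
    ring
  rw [← sub_eq_zero, ← e, sub_eq_zero]

lemma card_point_short {W : WeierstrassCurve F} [Finite F] [hell : W.IsElliptic]
    [hell' : (short W).IsElliptic] (h2 : (2 : F) ≠ 0) :
    Nat.card (short W).toAffine.Point = Nat.card W.toAffine.Point := by
  have e1 := Nat.card_congr (pointEquiv W.toAffine)
  have e2 := Nat.card_congr (pointEquiv (short W).toAffine)
  have e3 : Nat.card {xy : F × F // W.toAffine.Equation xy.1 xy.2} =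
      Nat.card {xy : F × F // (short W).toAffine.Equation xy.1 xy.2} := by
    refine Nat.card_congr
      { toFun := fun p => ⟨(p.1.1, p.1.2 + (W.a₁ * p.1.1 + W.a₃) / 2), ?_⟩
        invFun := fun p => ⟨(p.1.1, p.1.2 - (W.a₁ * p.1.1 + W.a₃) / 2), ?_⟩
        left_inv := ?_
        right_inv := ?_ }
    · exact (equation_short h2 _ _).mp p.2
    · rw [equation_short h2]
      simpa using p.2
    · rintro ⟨⟨x, y⟩, h⟩; simp
    · rintro ⟨⟨x, y⟩, h⟩; simp
  rw [e1, e2]
  have h5 : Nat.card (WithZero {xy : F × F // W.toAffine.Equation xy.1 xy.2}) =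
      Nat.card {xy : F × F // W.toAffine.Equation xy.1 xy.2} + 1 := Finite.card_option
  have h6 : Nat.card (WithZero {xy : F × F // (short W).toAffine.Equation xy.1 xy.2}) =
      Nat.card {xy : F × F // (short W).toAffine.Equation xy.1 xy.2} + 1 := Finite.card_option
  rw [h5, h6, e3]

/-- The Hasse bound over finite fields of odd characteristic. -/
theorem hasse {W : WeierstrassCurve F} [Finite F] (hell : W.IsElliptic) (h2 : (2 : F) ≠ 0) :
    ((Nat.card F : ℤ) + 1 - (Nat.card W.toAffine.Point : ℤ)) ^ 2 ≤ 4 * Nat.card F := by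
  classical
  have := Fintype.ofFinite F
  have hell' : (short W).IsElliptic := ⟨by
    rw [short_Δ h2]; exact hell.isUnit⟩
  have h := hasse_short (W := short W) hell' rfl rfl h2
  rw [card_point_short h2] at h
  rwa [Nat.card_eq_fintype_card]

/-- The trivial bound over every finite field. -/
theorem trivial_bound {W : WeierstrassCurve F} [Finite F] (hell : W.IsElliptic) :
    |(Nat.card F : ℤ) + 1 - (Nat.card W.toAffine.Point : ℤ)| ≤ Nat.card F := by
  classical
  have := Fintype.ofFinite F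
  have e1 := Nat.card_congr (pointEquiv W.toAffine)
  have h5 : Nat.card (WithZero {xy : F × F // W.toAffine.Equation xy.1 xy.2}) =
      Nat.card {xy : F × F // W.toAffine.Equation xy.1 xy.2} + 1 := Finite.card_option
  have h6 : Nat.card {xy : F × F // W.toAffine.Equation xy.1 xy.2} ≤ 2 * Nat.card F := by
    rw [Nat.card_eq_fintype_card, Nat.card_eq_fintype_card, Fintype.card_subtype]
    have hcard := Finset.card_eq_sum_card_fiberwise (f := fun p : F × F => p.1)
      (s := Finset.univ.filter fun p : F × F => W.toAffine.Equation p.1 p.2)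
      (t := Finset.univ) (fun _ _ => Finset.mem_univ _)
    rw [hcard]
    calc _ ≤ ∑ x : F, 2 := by
          refine Finset.sum_le_sum fun x _ => ?_
          by_cases hne : ((Finset.univ.filter fun p : F × F => W.toAffine.Equation p.1 p.2).filter
            fun p => p.1 = x).Nonempty
          · obtain ⟨p, hp⟩ := hne
            simp only [Finset.mem_filter, Finset.mem_univ, true_and] at hp
            refine (Finset.card_le_card (t := {(x, p.2), (x, W.toAffine.negY x p.2)}) ?_).trans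
              Finset.card_le_two
            intro r hr
            simp only [Finset.mem_filter, Finset.mem_univ, true_and] at hr
            have h7 := Y_eq_of_X_eq hr.1 hp.1 (hr.2.trans hp.2.symm)
            rw [Finset.mem_insert, Finset.mem_singleton]
            rcases h7 with h8 | h8
            · exact Or.inl (Prod.ext hr.2 h8)
            · exact Or.inr (Prod.ext hr.2 (by rw [h8, hp.2]))
          · rw [Finset.not_nonempty_iff_eq_empty] at hne
            rw [hne]; simp
      _ = 2 * Fintype.card F := by simp [mul_comm]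
  rw [e1, h5, abs_le]
  push_cast
  constructor <;> omega

end Pool.Agent.Lib.MP_bf61d2_nt
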