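import Mathlib

set_option autoImplicit false

/-!
Finite places of a number field: residue characteristic, norm, and counting.
-/

namespace NumberField
end NumberField

namespace Pool.Agent.Lib.MP_bf61d2_nt

open NumberField IsDedekindDomain

variable {K : Type*} [Field K] [NumberField K]

/-- The residue characteristic. -/
noncomputable def pr (v : HeightOneSpectrum (𝓞 K)) : ℕ := Ideal.absNorm (Ideal.under ℤ v.asIdeal)

/-- The norm. -/
noncomputable def nm (v : HeightOneSpectrum (𝓞 K)) : ℕ := Ideal.absNorm v.asIdeal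

lemma pr_prime (v : HeightOneSpectrum (𝓞 K)) : (pr v).Prime := by
  have : v.asIdeal.IsPrime := v.isPrime
  have : NeZero v.asIdeal := ⟨v.ne_bot⟩
  exact Nat.absNorm_under_prime v.asIdeal

lemma pr_mem (v : HeightOneSpectrum (𝓞 K)) : ((pr v : ℕ) : 𝓞 K) ∈ v.asIdeal :=
  Int.absNorm_under_mem v.asIdeal

lemma nm_eq (v : HeightOneSpectrum (𝓞 K)) : ∃ f : ℕ, 1 ≤ f ∧ nm v = pr v ^ f := by
  have h : nm v = pr v ^ ((Ideal.span {((pr v : ℕ) : ℤ)}).inertiaDeg' v.asIdeal) := by
    have : v.asIdeal.LiesOver (Ideal.span {((pr v : ℕ) : ℤ)}) := by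
      unfold pr; infer_instance
    exact Ideal.absNorm_eq_pow_inertiaDeg' v.asIdeal (pr_prime v)
  refine ⟨_, ?_, h⟩
  by_contra hcon
  have h0 : (Ideal.span {((pr v : ℕ) : ℤ)}).inertiaDeg' v.asIdeal = 0 := by omega
  rw [h0, pow_zero] at h
  have := NumberField.HeightOneSpectrum.one_lt_absNorm v
  unfold nm at h
  omega

lemma one_lt_nm (v : HeightOneSpectrum (𝓞 K)) : 1 < nm v :=
  NumberField.HeightOneSpectrum.one_lt_absNorm v

lemma pr_le_nm (v : HeightOneSpectrum (𝓞 K)) : pr v ≤ nm v := by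
  obtain ⟨f, hf, h⟩ := nm_eq v
  rw [h]
  exact Nat.le_self_pow (by omega) _

lemma sq_pr_le_nm (v : HeightOneSpectrum (𝓞 K)) (h : nm v ≠ pr v) : pr v ^ 2 ≤ nm v := by
  obtain ⟨f, hf, hv⟩ := nm_eq v
  have hf2 : 2 ≤ f := by
    rcases Nat.lt_or_ge f 2 with h2 | h2
    · have : f = 1 := by omega
      rw [this, pow_one] at hv
      exact absurd hv h
    · exact h2
  rw [hv]
  exact Nat.pow_le_pow_right (pr_prime v).pos hf2

/-- At most `[K : ℚ]` places lie above a prime number. -/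
lemma card_above_le (p : ℕ) (S : Finset (HeightOneSpectrum (𝓞 K))) (hS : ∀ v ∈ S, pr v = p) :
    S.card ≤ Module.finrank ℚ K := by
  classical
  rcases S.eq_empty_or_nonempty with rfl | ⟨v₀, hv₀⟩
  · simp
  have hp : p.Prime := hS v₀ hv₀ ▸ pr_prime v₀
  have hdvd : ∏ v ∈ S, v.asIdeal ∣ Ideal.span {((p : ℕ) : 𝓞 K)} := by
    refine Finset.prod_dvd_of_coprime ?_ ?_
    · intro v _ w _ hvw
      rw [Function.onFun, Ideal.isCoprime_iff_sup_eq]
      have h1 : v.asIdeal.IsMaximal := v.isMaximal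
      have h2 : w.asIdeal.IsMaximal := w.isMaximal
      exact Ideal.IsMaximal.coprime_of_ne h1 h2 fun h => hvw (HeightOneSpectrum.ext h)
    · intro v hv
      rw [Ideal.dvd_span_singleton, ← hS v hv]
      exact pr_mem v
  have h1 : ∏ v ∈ S, nm v ∣ p ^ Module.finrank ℚ K := by
    have h2 := (Ideal.absNorm : Ideal (𝓞 K) →*₀ ℕ).toMonoidHom.map_dvd hdvd
    have h3 : Ideal.absNorm (∏ v ∈ S, v.asIdeal) = ∏ v ∈ S, nm v := by
      rw [map_prod]; rfl
    have h4 : Ideal.absNorm (Ideal.span {((p : ℕ) : 𝓞 K)}) = p ^ Module.finrank ℚ K := by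
      rw [Ideal.absNorm_span_natCast, RingOfIntegers.rank]
    rw [← h3, ← h4]
    exact h2
  have h2 : p ^ S.card ≤ ∏ v ∈ S, nm v := by
    rw [← Finset.prod_const]
    exact Finset.prod_le_prod' fun v hv => by rw [← hS v hv]; exact pr_le_nm v
  have h3 : p ^ S.card ≤ p ^ Module.finrank ℚ K :=
    h2.trans (Nat.le_of_dvd (pow_pos hp.pos _) h1)
  exact (Nat.pow_le_pow_iff_right hp.one_lt).mp h3

/-- Sums over places are controlled by sums over integers. -/
lemma sum_pr_le {h : ℕ → ℝ} (h0 : ∀ n, 0 ≤ h n) (hs : Summable h)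
    (S : Finset (HeightOneSpectrum (𝓞 K))) :
    ∑ v ∈ S, h (pr v) ≤ Module.finrank ℚ K * ∑' n, h n := by
  classical
  rw [← Finset.sum_fiberwise_of_maps_to (g := pr) (t := S.image pr)
    (fun v hv => Finset.mem_image_of_mem _ hv)]
  calc ∑ p ∈ S.image pr, ∑ v ∈ S with pr v = p, h (pr v)
      ≤ ∑ p ∈ S.image pr, Module.finrank ℚ K * h p := by
        refine Finset.sum_le_sum fun p _ => ?_
        have e : ∑ v ∈ S with pr v = p, h (pr v) = ∑ v ∈ S with pr v = p, h p :=
          Finset.sum_congr rfl fun v hv => by rw [(Finset.mem_filter.mp hv).2]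
        rw [e, Finset.sum_const, nsmul_eq_mul]
        refine mul_le_mul_of_nonneg_right ?_ (h0 p)
        exact_mod_cast card_above_le p _ fun v hv => (Finset.mem_filter.mp hv).2
    _ = Module.finrank ℚ K * ∑ p ∈ S.image pr, h p := by rw [Finset.mul_sum]
    _ ≤ _ := by
        refine mul_le_mul_of_nonneg_left ?_ (Nat.cast_nonneg _)
        exact hs.sum_le_tsum _ fun n _ => h0 n

lemma summable_pr {h : ℕ → ℝ} (h0 : ∀ n, 0 ≤ h n) (hs : Summable h) :
    Summable fun v : HeightOneSpectrum (𝓞 K) => h (pr v) :=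
  summable_of_sum_le (fun v => h0 _) fun S => sum_pr_le h0 hs S

end Pool.Agent.Lib.MP_bf61d2_nt
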