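import Mathlib

set_option autoImplicit false

/-!
The residue field of the completion of a number field at a finite place.
-/

namespace NumberField
end NumberField

namespace Pool.Agent.Lib.MP_bf61d2_nt

open NumberField IsDedekindDomain IsDedekindDomain.HeightOneSpectrum

variable {K : Type*} [Field K] [NumberField K] (v : HeightOneSpectrum (𝓞 K))

/-- The reduction map from the global integers. -/
noncomputable def red : 𝓞 K →+* IsLocalRing.ResidueField (v.adicCompletionIntegers K) :=
  (IsLocalRing.residue (v.adicCompletionIntegers K)).comp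
    (algebraMap (𝓞 K) (v.adicCompletionIntegers K))

lemma residue_eq_zero_iff' (x : v.adicCompletionIntegers K) :
    IsLocalRing.residue (v.adicCompletionIntegers K) x = 0 ↔ Valued.v x.1 < 1 := by
  rw [IsLocalRing.residue_eq_zero_iff, IsLocalRing.mem_maximalIdeal, mem_nonunits_iff,
    adicCompletionIntegers.isUnit_iff_valued_eq_one, lt_iff_le_and_ne]
  exact ⟨fun h => ⟨x.2, h⟩, fun h => h.2⟩

lemma red_eq_zero_iff (r : 𝓞 K) : red v r = 0 ↔ r ∈ v.asIdeal := by
  rw [red, RingHom.comp_apply, residue_eq_zero_iff', algebraMap_adicCompletionIntegers_apply,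
    valuedAdicCompletion_eq_valuation', valuation_lt_one_iff_mem]

lemma red_surjective : Function.Surjective (red v) := by
  intro y
  obtain ⟨x, rfl⟩ := IsLocalRing.residue_surjective y
  have hnhds : {z : v.adicCompletion K | Valued.v (z - x.1) < 1} ∈ nhds x.1 := by
    rw [Valued.mem_nhds]
    exact ⟨1, fun z hz => by simpa using hz⟩
  obtain ⟨k, hk⟩ := (denseRange_algebraMap K v).mem_nhds hnhds
  have hk' : Valued.v (algebraMap K (v.adicCompletion K) k - x.1) < 1 := hk
  have hk1 : v.valuation K k ≤ 1 := by
    rw [← valuedAdicCompletion_eq_valuation' (v := v)]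
    have e : ((k : v.adicCompletion K)) = (algebraMap K (v.adicCompletion K) k - x.1) + x.1 := by
      rw [sub_add_cancel]; rfl
    rw [e]
    exact (Valuation.map_add _ _ _).trans (max_le hk'.le x.2)
  obtain ⟨a, ha⟩ := exists_valuation_sub_lt_of_integer v hk1 1
  refine ⟨a, ?_⟩
  rw [red, RingHom.comp_apply, ← sub_eq_zero, ← map_sub, residue_eq_zero_iff']
  have e : (algebraMap (𝓞 K) (v.adicCompletionIntegers K) a - x).1 =
      ((algebraMap (𝓞 K) K a - k : K) : v.adicCompletion K) +
        (algebraMap K (v.adicCompletion K) k - x.1) := by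
    have e2 : ((algebraMap (𝓞 K) K a - k : K) : v.adicCompletion K) =
        ((algebraMap (𝓞 K) K a : K) : v.adicCompletion K) - algebraMap K (v.adicCompletion K) k := by
      exact map_sub (algebraMap K (v.adicCompletion K)) _ _
    rw [e2]
    simp
  rw [e]
  refine (Valuation.map_add _ _ _).trans_lt (max_lt ?_ hk')
  rw [valuedAdicCompletion_eq_valuation']
  simpa using ha

theorem card_residue : Nat.card (IsLocalRing.ResidueField (v.adicCompletionIntegers K)) =
    v.asIdeal.absNorm := by
  have h1 : RingHom.ker (red v) = v.asIdeal := by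
    ext r; rw [RingHom.mem_ker, red_eq_zero_iff]
  have h2 := RingHom.quotientKerEquivOfSurjective (red_surjective v)
  rw [← Nat.card_congr h2.toEquiv, h1, Ideal.absNorm_apply, Submodule.cardQuot_apply]

instance : Finite (IsLocalRing.ResidueField (v.adicCompletionIntegers K)) := by
  apply Nat.finite_of_card_ne_zero
  rw [card_residue]
  have := NumberField.HeightOneSpectrum.one_lt_absNorm v
  omega

end Pool.Agent.Lib.MP_bf61d2_nt
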