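import Mathlib
import Pool.Agent.Lib.MP_bf61d2_nt.Trim.Hasse
import Pool.Agent.Lib.MP_bf61d2_nt.Trim.Local
import Pool.Agent.Lib.MP_bf61d2_nt.Trim.Places
import Pool.Agent.Lib.MP_bf61d2_nt.Trim.Residue

set_option autoImplicit false

/-!
Local data of a Weierstrass curve over a number field.
-/

namespace LSeries
end LSeries

namespace NumberField
end NumberField

namespace Pool.Agent.Lib.MP_bf61d2_nt

open Polynomial Filter Topology LSeries NumberField IsDedekindDomain ArithmeticFunction

variable {K : Type*} [Field K] [NumberField K] (W : WeierstrassCurve K)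
  (v : HeightOneSpectrum (𝓞 K))

/-- The local polynomial at a place. -/
noncomputable def lp : ℤ[X] :=
  (W.baseChange (v.adicCompletion K)).localPolynomial (v.adicCompletionIntegers K)

/-- The trace of Frobenius at a place. -/
noncomputable def tr : ℤ := -(lp W v).coeff 1

/-- The constant term of the Frobenius polynomial at a place. -/
noncomputable def bb : ℤ := (lp W v).coeff 2

lemma coeff_quad_one (a b : ℤ) : (quad a b).coeff 1 = -a := by
  rw [quad, coeff_add, coeff_sub, coeff_one, coeff_C_mul, coeff_C_mul, coeff_X, coeff_X_pow]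
  norm_num

lemma coeff_quad_two (a b : ℤ) : (quad a b).coeff 2 = b := by
  rw [quad, coeff_add, coeff_sub, coeff_one, coeff_C_mul, coeff_C_mul, coeff_X, coeff_X_pow]
  norm_num

lemma two_ne_zero_residue (h : pr v ≠ 2) :
    (2 : IsLocalRing.ResidueField (v.adicCompletionIntegers K)) ≠ 0 := by
  intro h0
  have h1 : red v ((2 : ℤ) : 𝓞 K) = 0 := by
    rw [map_intCast]; exact_mod_cast h0
  rw [red_eq_zero_iff, Int.cast_mem_ideal_iff] at h1
  have h2 : pr v ∣ 2 := by exact_mod_cast h1
  exact h ((Nat.prime_dvd_prime_iff_eq (pr_prime v) Nat.prime_two).mp h2)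

lemma lp_eq : lp W v = quad (tr W v) (bb W v) ∧ |tr W v| ≤ nm v ∧ |bb W v| ≤ nm v ∧
    (pr v ≠ 2 → (tr W v) ^ 2 ≤ 4 * nm v) := by
  have key : ∃ a b : ℤ, lp W v = quad a b ∧ |a| ≤ nm v ∧ |b| ≤ nm v ∧
      (pr v ≠ 2 → a ^ 2 ≤ 4 * nm v) := by
    have hn : (1 : ℤ) ≤ nm v := by exact_mod_cast (one_lt_nm v).le
    have hcard : Nat.card (IsLocalRing.ResidueField (v.adicCompletionIntegers K)) = nm v :=
      card_residue v
    rw [lp, WeierstrassCurve.localPolynomial]
    split_ifs with h1 h2 h3
    · have hell := (WeierstrassCurve.hasGoodReduction_iff_isElliptic_reduction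
        (v.adicCompletionIntegers K)).mp h1
      refine ⟨_, _, rfl, ?_, ?_, fun hp => ?_⟩
      · have := trivial_bound hell
        rw [hcard] at this ⊢
        exact this
      · rw [hcard, abs_of_nonneg (Int.natCast_nonneg _)]
      · have := hasse hell (two_ne_zero_residue v hp)
        rw [hcard] at this ⊢
        exact this
    · refine ⟨1, 0, by simp [quad], ?_, ?_, fun _ => ?_⟩
      · simpa using hn
      · simp
      · linarith
    · refine ⟨-1, 0, by simp [quad], ?_, ?_, fun _ => ?_⟩
      · simpa using hn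
      · simp
      · linarith
    · refine ⟨0, 0, by simp [quad], ?_, ?_, fun _ => ?_⟩
      · simp
      · simp
      · linarith
  obtain ⟨a, b, h, h1, h2, h3⟩ := key
  have ha : tr W v = a := by rw [tr, h, coeff_quad_one, neg_neg]
  have hb : bb W v = b := by rw [bb, h, coeff_quad_two]
  rw [ha, hb]
  exact ⟨h, h1, h2, h3⟩

/-- The local Euler factor as an arithmetic function. -/
noncomputable def fac : ArithmeticFunction ℤ :=
  ofPowerSeries (nm v) (inv (tr W v) (bb W v))

lemma fac_eq : (W.baseChange (v.adicCompletion K)).localEulerFactor (v.adicCompletionIntegers K) =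
    fac W v := by
  have hcard : Nat.card (IsLocalRing.ResidueField (v.adicCompletionIntegers K)) = nm v :=
    card_residue v
  rw [WeierstrassCurve.localEulerFactor, WeierstrassCurve.localPowerSeries, hcard, fac, inv,
    ← (lp_eq W v).1]
  rfl

lemma LFunction_eq : W.LFunction = eulerProduct (fac W) := by
  rw [WeierstrassCurve.LFunction]
  congr 1
  ext v : 1
  exact fac_eq W v

lemma fac_one : fac W v 1 = 1 := by
  rw [fac, ofPowerSeries_apply_one, constantCoeff_inv]

lemma fac_cofinite (n : ℕ) : ∀ᶠ v in cofinite, fac W v n = (1 : ArithmeticFunction ℤ) n := by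
  have hfin : {v : HeightOneSpectrum (𝓞 K) | nm v ≤ n}.Finite :=
    Ring.HasFiniteQuotients.finite_absNorm_heightOneSpectrum_le n
  refine (hfin.subset ?_ : {v | ¬ fac W v n = (1 : ArithmeticFunction ℤ) n}.Finite)
  intro v hv
  by_contra hcon
  apply hv
  have hlt : n < nm v := not_le.mp hcon
  rcases Nat.eq_zero_or_pos n with rfl | hn
  · simp
  by_cases hn1 : n = 1
  · subst hn1
    rw [fac_one, one_one]
  · rw [one_apply_ne hn1, fac, ofPowerSeries_apply (one_lt_nm v), Function.extend_apply']
    · rfl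
    · rintro ⟨k, hk⟩
      rcases Nat.eq_zero_or_pos k with rfl | hk0
      · exact hn1 (by rw [← hk]; simp)
      · have h2 : nm v ≤ nm v ^ k := Nat.le_self_pow hk0.ne' _
        have h3 : nm v ^ k = n := hk
        omega

/-- The L-series of `g(q⁻ˢ)`. -/
lemma hasSum_term_iff {q : ℕ} (hq : 1 < q) (g : PowerSeries ℤ) (s A : ℂ) :
    HasSum (term (fun n => ((ofPowerSeries q g n : ℤ) : ℂ)) s) A ↔
      HasSum (fun k : ℕ => (g.coeff k : ℂ) * ((q : ℂ) ^ (-s)) ^ k) A := by
  have hinj : Function.Injective fun k : ℕ => q ^ k := Nat.pow_right_injective hq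
  rw [← hinj.hasSum_iff]
  · have e : (term (fun n => ((ofPowerSeries q g n : ℤ) : ℂ)) s) ∘ (fun k : ℕ => q ^ k) =
        fun k : ℕ => (g.coeff k : ℂ) * ((q : ℂ) ^ (-s)) ^ k := by
      ext k
      have hqk : q ^ k ≠ 0 := pow_ne_zero k (by omega)
      rw [Function.comp_apply, term_of_ne_zero hqk, ofPowerSeries_apply_pow hq, div_eq_mul_inv,
        Nat.cast_pow, ← Complex.cpow_neg]
      rw [← Complex.natCast_cpow_natCast_mul, Complex.cpow_nat_mul]
    rw [e]
  · intro n hn
    rw [term_def]
    split_ifs with h0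
    · rfl
    · rw [ofPowerSeries_apply hq, Function.extend_apply']
      · simp
      · rintro ⟨k, hk⟩
        exact hn ⟨k, hk⟩

end Pool.Agent.Lib.MP_bf61d2_nt
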