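import Mathlib
import Pool.Agent.Lib.MP_bf61d2_nt.Trim.Euler
import Pool.Agent.Lib.MP_bf61d2_nt.Trim.Local
import Pool.Agent.Lib.MP_bf61d2_nt.Trim.LocalCurve
import Pool.Agent.Lib.MP_bf61d2_nt.Trim.Places

set_option autoImplicit false

/-!
The L-series of a Weierstrass curve over a number field: Euler product and logarithm.
-/

namespace NumberField
end NumberField

namespace Pool.Agent.Lib.MP_bf61d2_nt

open Filter Topology NumberField IsDedekindDomain ArithmeticFunction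

variable {K : Type*} [Field K] [NumberField K] (W : WeierstrassCurve K)
  (v : HeightOneSpectrum (𝓞 K))

/-- The scaling `q^{1/2 - σ}`. -/
noncomputable def wt (σ : ℝ) : ℝ := (nm v : ℝ) ^ (1 / 2 - σ)

lemma nm_pos : (0 : ℝ) < nm v := by
  have := one_lt_nm v
  exact_mod_cast (by omega : 0 < nm v)

lemma wt_pos (σ : ℝ) : 0 < wt v σ := Real.rpow_pos_of_pos (nm_pos v) _

lemma rpow_neg_eq (σ : ℝ) : (nm v : ℝ) ^ (-σ) = wt v σ / Real.sqrt (nm v) := by
  have h := nm_pos v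
  rw [wt, Real.sqrt_eq_rpow, ← Real.rpow_sub h]
  congr 1; ring

lemma wt_le {σ : ℝ} (hσ : 3 / 2 ≤ σ) : wt v σ ≤ 1 / nm v := by
  have h1 : (1 : ℝ) ≤ nm v := by exact_mod_cast (one_lt_nm v).le
  rw [one_div, ← Real.rpow_neg_one, wt]
  exact Real.rpow_le_rpow_of_exponent_le h1 (by linarith)

/-- The local majorant. -/
noncomputable def xi (σ : ℝ) : ℝ :=
  |(tr W v : ℝ)| * (nm v : ℝ) ^ (-σ) + |(bb W v : ℝ)| * ((nm v : ℝ) ^ (-σ)) ^ 2

lemma xi_nonneg (σ : ℝ) : 0 ≤ xi W v σ := by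
  unfold xi; positivity

lemma bb_term_le (σ : ℝ) : |(bb W v : ℝ)| * ((nm v : ℝ) ^ (-σ)) ^ 2 ≤ wt v σ ^ 2 := by
  have h := nm_pos v
  obtain ⟨-, -, hb, -⟩ := lp_eq W v
  have hb' : |(bb W v : ℝ)| ≤ nm v := by exact_mod_cast hb
  rw [rpow_neg_eq, div_pow, Real.sq_sqrt h.le]
  calc |(bb W v : ℝ)| * (wt v σ ^ 2 / nm v) ≤ nm v * (wt v σ ^ 2 / nm v) := by gcongr
    _ = wt v σ ^ 2 := by field_simp

lemma tr_term_le_of_odd (hp : pr v ≠ 2) (σ : ℝ) :
    |(tr W v : ℝ)| * (nm v : ℝ) ^ (-σ) ≤ 2 * wt v σ := by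
  have h := nm_pos v
  obtain ⟨-, -, -, ha⟩ := lp_eq W v
  have ha' : ((tr W v : ℝ)) ^ 2 ≤ 4 * nm v := by exact_mod_cast ha hp
  have hs : 0 < Real.sqrt (nm v) := Real.sqrt_pos.mpr h
  have h1 : |(tr W v : ℝ)| ≤ 2 * Real.sqrt (nm v) := by
    apply abs_le_of_sq_le_sq _ (by positivity)
    rw [mul_pow, Real.sq_sqrt h.le]
    linarith
  rw [rpow_neg_eq]
  calc |(tr W v : ℝ)| * (wt v σ / Real.sqrt (nm v))
      ≤ 2 * Real.sqrt (nm v) * (wt v σ / Real.sqrt (nm v)) := by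
        have := wt_pos v σ
        gcongr
    _ = 2 * wt v σ := by field_simp

lemma three_le_of_odd (hp : pr v ≠ 2) : (3 : ℝ) ≤ nm v := by
  have h1 := (pr_prime v).two_le
  have h2 := pr_le_nm v
  exact_mod_cast (by omega : 3 ≤ nm v)

lemma tr_term_le_of_even {σ : ℝ} (hσ : 3 / 2 ≤ σ) :
    |(tr W v : ℝ)| * (nm v : ℝ) ^ (-σ) ≤ 71 / 100 := by
  have h := nm_pos v
  obtain ⟨-, ha, -, -⟩ := lp_eq W v
  have ha' : |(tr W v : ℝ)| ≤ nm v := by exact_mod_cast ha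
  have h2 : (2 : ℝ) ≤ nm v := by exact_mod_cast one_lt_nm v
  have h1 : (1 : ℝ) ≤ nm v := by linarith
  calc |(tr W v : ℝ)| * (nm v : ℝ) ^ (-σ) ≤ nm v * (nm v : ℝ) ^ (-(3 / 2) : ℝ) := by
        gcongr
    _ = (nm v : ℝ) ^ (-(1 / 2) : ℝ) := by
        nth_rewrite 1 [← Real.rpow_one (nm v : ℝ)]
        rw [← Real.rpow_add h]
        norm_num
    _ ≤ (2 : ℝ) ^ (-(1 / 2) : ℝ) := Real.rpow_le_rpow_of_nonpos (by norm_num) h2 (by norm_num)
    _ ≤ 71 / 100 := by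
        rw [Real.rpow_neg (by norm_num), ← Real.sqrt_eq_rpow, inv_le_comm₀ (by positivity)
          (by norm_num)]
        apply Real.le_sqrt_of_sq_le
        norm_num

lemma xi_le_of_odd (hp : pr v ≠ 2) {σ : ℝ} (hσ : 3 / 2 ≤ σ) :
    xi W v σ ≤ 3 * wt v σ ∧ wt v σ ≤ 1 / 3 := by
  have h1 := bb_term_le W v σ
  have h2 := tr_term_le_of_odd W v hp σ
  have h3 := wt_le v hσ
  have h4 := three_le_of_odd v hp
  have h5 : (1 : ℝ) / nm v ≤ 1 / 3 := by gcongr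
  have h6 := wt_pos v σ
  refine ⟨?_, h3.trans h5⟩
  unfold xi
  nlinarith

lemma xi_le {σ : ℝ} (hσ : 3 / 2 ≤ σ) : xi W v σ ≤ 24 / 25 := by
  by_cases hp : pr v = 2
  · have h1 := bb_term_le W v σ
    have h2 := tr_term_le_of_even W v hσ
    have h3 := wt_le v hσ
    have h4 : (2 : ℝ) ≤ nm v := by exact_mod_cast one_lt_nm v
    have h5 : (1 : ℝ) / nm v ≤ 1 / 2 := by gcongr
    have h6 := wt_pos v σ
    have h7 : wt v σ ^ 2 ≤ (1 / 2) ^ 2 := pow_le_pow_left₀ h6.le (h3.trans h5) 2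
    unfold xi
    linarith
  · have h1 := bb_term_le W v σ
    have h2 := tr_term_le_of_odd W v hp σ
    have h3 := (xi_le_of_odd W v hp hσ).2
    have h6 := wt_pos v σ
    have h7 : wt v σ ^ 2 ≤ (1 / 3) ^ 2 := pow_le_pow_left₀ h6.le h3 2
    unfold xi
    linarith

/-- The local majorant in terms of the residue characteristic. -/
lemma xi_le_pr {σ : ℝ} (hσ : 3 / 2 ≤ σ) :
    xi W v σ ≤ (3 + 2 ^ σ) * (pr v : ℝ) ^ (-(σ - 1 / 2)) := by
  by_cases hp : pr v = 2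
  · have h1 := xi_le W v hσ
    rw [hp]
    have h2 : (1 : ℝ) ≤ 2 ^ σ * (2 : ℝ) ^ (-(σ - 1 / 2)) := by
      rw [← Real.rpow_add (by norm_num)]
      exact Real.one_le_rpow (by norm_num) (by linarith)
    have h3 : (0 : ℝ) < (2 : ℝ) ^ (-(σ - 1 / 2)) := by positivity
    push_cast
    nlinarith
  · obtain ⟨h1, -⟩ := xi_le_of_odd W v hp hσ
    have hp0 : (0 : ℝ) < pr v := by exact_mod_cast (pr_prime v).pos
    have h2 : wt v σ ≤ (pr v : ℝ) ^ (-(σ - 1 / 2)) := by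
      rw [wt, show (1 / 2 - σ) = -(σ - 1 / 2) by ring]
      exact Real.rpow_le_rpow_of_nonpos hp0 (by exact_mod_cast pr_le_nm v) (by linarith)
    have h3 : (0 : ℝ) < (pr v : ℝ) ^ (-(σ - 1 / 2)) := by positivity
    have h4 : (0 : ℝ) < 2 ^ σ := by positivity
    nlinarith

lemma summable_xi {σ : ℝ} (hσ : 3 / 2 < σ) : Summable fun v => xi W v σ := by
  have h1 : Summable fun n : ℕ => (3 + 2 ^ σ) * (n : ℝ) ^ (-(σ - 1 / 2)) :=
    (Real.summable_nat_rpow.mpr (by linarith)).mul_left _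
  have h2 := summable_pr (K := K) (fun n => by positivity) h1
  exact Summable.of_nonneg_of_le (fun v => xi_nonneg W v σ) (fun v => xi_le_pr W v hσ.le) h2

/-- The local variable. -/
noncomputable def zv (s : ℂ) : ℂ :=
  tr W v * (nm v : ℂ) ^ (-s) - bb W v * ((nm v : ℂ) ^ (-s)) ^ 2

lemma norm_cpow (s : ℂ) : ‖(nm v : ℂ) ^ (-s)‖ = (nm v : ℝ) ^ (-s.re) := by
  rw [Complex.norm_natCast_cpow_of_pos (by have := one_lt_nm v; omega), Complex.neg_re]

lemma norm_zv_le (s : ℂ) : ‖zv W v s‖ ≤ xi W v s.re := by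
  rw [zv, xi]
  refine (norm_sub_le _ _).trans (le_of_eq ?_)
  rw [norm_mul, norm_mul, norm_pow, norm_cpow, Complex.norm_intCast, Complex.norm_intCast]

lemma hasSum_fac {s : ℂ} (hs : 3 / 2 ≤ s.re) :
    LSeriesHasSum (fun n => ((fac W v n : ℤ) : ℂ)) s (1 - zv W v s)⁻¹ := by
  rw [LSeriesHasSum, fac, hasSum_term_iff (one_lt_nm v)]
  have h := hasSum_inv (a := tr W v) (b := bb W v) (T := (nm v : ℂ) ^ (-s)) (x := xi W v s.re)
    (by rw [norm_cpow]; exact le_rfl) (by have := xi_le W v hs; linarith)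
  exact h

lemma tsum_norm_fac {σ : ℝ} (hσ : 3 / 2 ≤ σ) :
    ∑' n, ‖LSeries.term (fun n => ((fac W v n : ℤ) : ℂ)) (σ : ℂ) n‖ ≤ 1 + 25 * xi W v σ := by
  have hx := xi_le W v hσ
  have hx0 := xi_nonneg W v σ
  obtain ⟨h1, h2⟩ := summable_inv (a := tr W v) (b := bb W v) (T := (nm v : ℝ) ^ (-σ))
    (x := xi W v σ) (by positivity) le_rfl (by linarith)
  have hinj : Function.Injective fun k : ℕ => nm v ^ k := Nat.pow_right_injective (one_lt_nm v)
  have hsupp : Function.support (fun n =>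
      ‖LSeries.term (fun n => ((fac W v n : ℤ) : ℂ)) (σ : ℂ) n‖) ⊆
      Set.range fun k : ℕ => nm v ^ k := by
    intro n hn
    by_contra hcon
    apply hn
    simp only [norm_eq_zero]
    rw [LSeries.term_def]
    split_ifs with h0
    · rfl
    · rw [fac, ofPowerSeries_apply (one_lt_nm v), Function.extend_apply']
      · simp
      · rintro ⟨k, hk⟩
        exact hcon ⟨k, hk⟩
  rw [← hinj.tsum_eq hsupp]
  have e : ∀ k : ℕ, ‖LSeries.term (fun n => ((fac W v n : ℤ) : ℂ)) (σ : ℂ) (nm v ^ k)‖ =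
      |((inv (tr W v) (bb W v)).coeff k : ℝ)| * ((nm v : ℝ) ^ (-σ)) ^ k := by
    intro k
    have hqk : nm v ^ k ≠ 0 := pow_ne_zero k (by have := one_lt_nm v; omega)
    rw [LSeries.norm_term_eq, if_neg hqk, fac, ofPowerSeries_apply_pow (one_lt_nm v),
      Complex.norm_intCast, Complex.ofReal_re, div_eq_mul_inv, Nat.cast_pow,
      ← Real.rpow_neg (by positivity), ← Real.rpow_natCast, ← Real.rpow_natCast,
      ← Real.rpow_mul (nm_pos v).le, ← Real.rpow_mul (nm_pos v).le, mul_comm (k : ℝ)]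
  simp_rw [e]
  refine h2.trans ?_
  rw [div_le_iff₀ (by linarith)]
  nlinarith

theorem lseries_euler {s : ℂ} (hs : 3 / 2 < s.re) :
    LSeriesSummable (fun n => ((W.LFunction n : ℤ) : ℂ)) s ∧
      Tendsto (fun S : Finset (HeightOneSpectrum (𝓞 K)) => ∏ v ∈ S, (1 - zv W v s)⁻¹) atTop
        (𝓝 (W.LSeries s)) := by
  have h := eulerProduct_LSeries (f := fac W) (fun v => fac_one W v) (fac_cofinite W)
    (σ := s.re) (x := fun v => 25 * xi W v s.re) ((summable_xi W hs).mul_left 25)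
    (fun v => mul_nonneg (by norm_num) (xi_nonneg W v _))
    (fun v => (hasSum_fac W v (s := (s.re : ℂ)) (by simpa using hs.le)).LSeriesSummable)
    (fun v => tsum_norm_fac W v hs.le) (s := s) le_rfl
  rw [← LFunction_eq] at h
  refine ⟨h.1, ?_⟩
  have h2 := h.2
  have e : ∀ S : Finset (HeightOneSpectrum (𝓞 K)),
      ∏ v ∈ S, LSeries (fun n => ((fac W v n : ℤ) : ℂ)) s = ∏ v ∈ S, (1 - zv W v s)⁻¹ :=
    fun S => Finset.prod_congr rfl fun v _ => (hasSum_fac W v hs.le).LSeries_eq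
  simp_rw [e] at h2
  exact h2

end Pool.Agent.Lib.MP_bf61d2_nt
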