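import Mathlib
import Pool.Agent.Lib.MP_bf61d2_nt.Trim.Local
import Pool.Agent.Lib.MP_bf61d2_nt.Trim.LocalCurve

set_option autoImplicit false

/-!
The local polynomial of a curve with a good integral model, away from 2 and 3.
-/

namespace WeierstrassCurve
end WeierstrassCurve

namespace Pool.Agent.Lib.MP_bf61d2_nt

open WeierstrassCurve WeierstrassCurve.Affine

section Count

variable {F : Type*} [Field F]

lemma equation_smul (W : WeierstrassCurve F) (C : VariableChange F) (x y : F) :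
    (C • W).toAffine.Equation x y ↔
      W.toAffine.Equation ((C.u : F) ^ 2 * x + C.r) ((C.u : F) ^ 3 * y + (C.u : F) ^ 2 * C.s * x + C.t) := by
  rw [equation_iff, equation_iff, variableChange_a₁, variableChange_a₂, variableChange_a₃,
    variableChange_a₄, variableChange_a₆]
  have hu : (C.u : F) ≠ 0 := C.u.ne_zero
  set u : F := (C.u : F) with hudef
  have hinv : ((C.u⁻¹ : Fˣ) : F) = u⁻¹ := by rw [Units.val_inv_eq_inv_val]
  rw [hinv, ← sub_eq_zero, ← sub_eq_zero (a := (u ^ 3 * y + u ^ 2 * C.s * x + C.t) ^ 2 + _ + _)]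
  have e : ((u ^ 3 * y + u ^ 2 * C.s * x + C.t) ^ 2 +
      W.a₁ * (u ^ 2 * x + C.r) * (u ^ 3 * y + u ^ 2 * C.s * x + C.t) +
      W.a₃ * (u ^ 3 * y + u ^ 2 * C.s * x + C.t)) - ((u ^ 2 * x + C.r) ^ 3 +
      W.a₂ * (u ^ 2 * x + C.r) ^ 2 + W.a₄ * (u ^ 2 * x + C.r) + W.a₆) =
      u ^ 6 * ((y ^ 2 + u⁻¹ * (W.a₁ + 2 * C.s) * x * y +
        u⁻¹ ^ 3 * (W.a₃ + C.r * W.a₁ + 2 * C.t) * y) -
        (x ^ 3 + u⁻¹ ^ 2 * (W.a₂ - C.s * W.a₁ + 3 * C.r - C.s ^ 2) * x ^ 2 +
        u⁻¹ ^ 4 * (W.a₄ - C.s * W.a₃ + 2 * C.r * W.a₂ - (C.t + C.r * C.s) * W.a₁ + 3 * C.r ^ 2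
          - 2 * C.s * C.t) * x +
        u⁻¹ ^ 6 * (W.a₆ + C.r * W.a₄ + C.r ^ 2 * W.a₂ + C.r ^ 3 - C.t * W.a₃ - C.t ^ 2
          - C.r * C.t * W.a₁))) := by
    field_simp
    ring
  rw [e, mul_eq_zero, or_iff_right (pow_ne_zero 6 hu)]

/-- The point count is an isomorphism invariant. -/
lemma card_point_smul [Finite F] (W : WeierstrassCurve F) (C : VariableChange F)
    (h1 : W.IsElliptic) (h2 : (C • W).IsElliptic) :
    Nat.card (C • W).toAffine.Point = Nat.card W.toAffine.Point := by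
  have e1 := Nat.card_congr (pointEquiv W.toAffine)
  have e2 := Nat.card_congr (pointEquiv (C • W).toAffine)
  have hu : (C.u : F) ≠ 0 := C.u.ne_zero
  have e3 : Nat.card {xy : F × F // (C • W).toAffine.Equation xy.1 xy.2} =
      Nat.card {xy : F × F // W.toAffine.Equation xy.1 xy.2} := by
    refine Nat.card_congr
      { toFun := fun p => ⟨((C.u : F) ^ 2 * p.1.1 + C.r,
          (C.u : F) ^ 3 * p.1.2 + (C.u : F) ^ 2 * C.s * p.1.1 + C.t), ?_⟩
        invFun := fun p => ⟨((p.1.1 - C.r) / (C.u : F) ^ 2,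
          (p.1.2 - C.t - C.s * (p.1.1 - C.r)) / (C.u : F) ^ 3), ?_⟩
        left_inv := ?_
        right_inv := ?_ }
    · exact (equation_smul W C _ _).mp p.2
    · rw [equation_smul]
      have h3 : (C.u : F) ^ 2 * ((p.1.1 - C.r) / (C.u : F) ^ 2) + C.r = p.1.1 := by
        field_simp; ring
      have h4 : (C.u : F) ^ 3 * ((p.1.2 - C.t - C.s * (p.1.1 - C.r)) / (C.u : F) ^ 3) +
          (C.u : F) ^ 2 * C.s * ((p.1.1 - C.r) / (C.u : F) ^ 2) + C.t = p.1.2 := by
        field_simp; ring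
      simp only
      rw [h3, h4]
      exact p.2
    · rintro ⟨⟨x, y⟩, h⟩
      simp only [Subtype.mk.injEq, Prod.mk.injEq]
      constructor
      · field_simp; ring
      · field_simp; ring
    · rintro ⟨⟨x, y⟩, h⟩
      simp only [Subtype.mk.injEq, Prod.mk.injEq]
      constructor
      · field_simp; ring
      · field_simp; ring
  have h5 : Nat.card (WithZero {xy : F × F // W.toAffine.Equation xy.1 xy.2}) =
      Nat.card {xy : F × F // W.toAffine.Equation xy.1 xy.2} + 1 := Finite.card_option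
  have h6 : Nat.card (WithZero {xy : F × F // (C • W).toAffine.Equation xy.1 xy.2}) =
      Nat.card {xy : F × F // (C • W).toAffine.Equation xy.1 xy.2} + 1 := Finite.card_option
  rw [e1, e2, h5, h6, e3]

end Count

section Minimal

open IsDiscreteValuationRing IsDedekindDomain IsDedekindDomain.HeightOneSpectrum IsLocalRing

variable {R : Type*} [CommRing R] [IsDomain R] [IsDiscreteValuationRing R]
  {F : Type*} [Field F] [Algebra R F] [IsFractionRing R F]

lemma exists_unit_of_valuation {x : F}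
    (hx : valuation F (IsDiscreteValuationRing.maximalIdeal R) x = 1) :
    ∃ u : Rˣ, algebraMap R F u = x := by
  obtain ⟨r, rfl⟩ : ∃ r : R, algebraMap R F r = x := by
    exact exists_lift_of_le_one hx.le
  have hr : ¬ (valuation F (IsDiscreteValuationRing.maximalIdeal R) (algebraMap R F r) < 1) := by
    rw [hx]; exact lt_irrefl _
  rw [valuation_lt_one_iff_mem] at hr
  have : IsUnit r := by
    by_contra hcon
    exact hr ((IsLocalRing.mem_maximalIdeal r).mpr hcon)
  exact ⟨this.unit, rfl⟩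

variable (R) in
/-- Two integral models of a curve with good reduction differ by an integral change of variables,
away from the primes 2 and 3. -/
theorem exists_integral_change {W : WeierstrassCurve F} (W₀ : WeierstrassCurve R)
    (C : VariableChange F) (hC : W = C • W₀.map (algebraMap R F)) (hΔ : IsUnit W₀.Δ)
    (h2 : IsUnit (2 : R)) (h3 : IsUnit (3 : R)) :
    (W.minimal R).HasGoodReduction R ∧
      ∃ C' : VariableChange R, integralModel R (W.minimal R) = C' • W₀ := by
  set M : WeierstrassCurve F := W.minimal R with hM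
  set C₁ : VariableChange F := (W.exists_isMinimal R).choose with hC₁
  have hM1 : M = (C₁ * C) • W₀.map (algebraMap R F) := by
    rw [hM, minimal, ← hC₁, hC, mul_smul]
  set D : VariableChange F := C₁ * C with hD
  have hinjR : Function.Injective (algebraMap R F) := IsFractionRing.injective R F
  have hval0 : valuation F (IsDiscreteValuationRing.maximalIdeal R)
      (W₀.map (algebraMap R F)).Δ = 1 := by
    rw [map_Δ]
    refine le_antisymm (valuation_le_one _ _) ?_
    by_contra hcon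
    have h := not_le.mp hcon
    rw [valuation_lt_one_iff_mem] at h
    exact (IsLocalRing.mem_maximalIdeal _).mp h hΔ
  have hMmin : IsMinimal R M := by rw [hM]; infer_instance
  have hWint : IsIntegral R (W₀.map (algebraMap R F)) := ⟨⟨W₀, rfl⟩⟩
  have hgood : valuation F (IsDiscreteValuationRing.maximalIdeal R) M.Δ = 1 := by
    have hmax := hMmin.val_Δ_maximal
    have hj : D⁻¹ • M = W₀.map (algebraMap R F) := by rw [hM1, inv_smul_smul]
    have hint : IsIntegral R (D⁻¹ • M) := by rw [hj]; exact hWint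
    have hle := hmax.2 hint
    have e1 : (valuation_Δ_aux R (D⁻¹ • M) : WithZero (Multiplicative ℤ)) = 1 := by
      rw [valuation_Δ_aux_eq_of_isIntegral R (D⁻¹ • M), hj, hval0]
    have e2 : (valuation_Δ_aux R ((1 : VariableChange F) • M) : WithZero (Multiplicative ℤ)) =
        valuation F (IsDiscreteValuationRing.maximalIdeal R) M.Δ := by
      rw [one_smul, valuation_Δ_aux_eq_of_isIntegral R M]
    have h4 : valuation_Δ_aux R ((1 : VariableChange F) • M) ≤ valuation_Δ_aux R (D⁻¹ • M) := by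
      rw [← Subtype.coe_le_coe, e1]
      exact (valuation_Δ_aux R ((1 : VariableChange F) • M)).2
    have h5 := hle h4
    rw [← Subtype.coe_le_coe, e1, e2] at h5
    refine le_antisymm ?_ h5
    rw [← e2]
    exact (valuation_Δ_aux R ((1 : VariableChange F) • M)).2
  refine ⟨{ toIsMinimal := hMmin, goodReduction := hgood }, ?_⟩
  -- the scaling factor is a unit
  have hΔM : M.Δ = (D.u⁻¹ : Fˣ) ^ 12 * (W₀.map (algebraMap R F)).Δ := by
    rw [hM1, variableChange_Δ]
  have hu : valuation F (IsDiscreteValuationRing.maximalIdeal R) (D.u : F) = 1 := by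
    have h6 := congrArg (valuation F (IsDiscreteValuationRing.maximalIdeal R)) hΔM
    rw [hgood, map_mul, hval0, mul_one, Units.val_inv_eq_inv_val, map_pow, map_inv₀, inv_pow,
      eq_comm, inv_eq_one] at h6
    rcases lt_trichotomy (valuation F (IsDiscreteValuationRing.maximalIdeal R) (D.u : F)) 1 with
      h7 | h7 | h7
    · exact absurd h6 (pow_lt_one₀ zero_le h7 (by norm_num)).ne
    · exact h7
    · exact absurd h6 (one_lt_pow₀ h7 (by norm_num)).ne'
  obtain ⟨u₀, hu₀⟩ := exists_unit_of_valuation hu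
  obtain ⟨w2, hw2⟩ := h2
  obtain ⟨w3, hw3⟩ := h3
  have e2 : algebraMap R F (w2⁻¹ : Rˣ) * 2 = 1 := by
    have h7 : ((w2⁻¹ : Rˣ) : R) * 2 = 1 := by rw [← hw2]; exact w2.inv_mul
    have h8 := congrArg (algebraMap R F) h7
    rw [map_mul, map_one, map_ofNat] at h8
    exact h8
  have e3 : algebraMap R F (w3⁻¹ : Rˣ) * 3 = 1 := by
    have h7 : ((w3⁻¹ : Rˣ) : R) * 3 = 1 := by rw [← hw3]; exact w3.inv_mul
    have h8 := congrArg (algebraMap R F) h7
    rw [map_mul, map_one, map_ofNat] at h8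
    exact h8
  set I : WeierstrassCurve R := integralModel R M with hI
  have hIM : I.map (algebraMap R F) = M := baseChange_integralModel_eq R M
  have hDu : (D.u : F) ≠ 0 := D.u.ne_zero
  have hDi : (D.u : F) * ((D.u⁻¹ : Fˣ) : F) = 1 := by
    rw [Units.val_inv_eq_inv_val]; exact mul_inv_cancel₀ hDu
  have f1 : algebraMap R F I.a₁ = (D.u⁻¹ : Fˣ) * (algebraMap R F W₀.a₁ + 2 * D.s) := by
    have := integralModel_a₁_eq R M
    rw [← hI] at this
    rw [this, hM1, variableChange_a₁, map_a₁]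
  have f2 : algebraMap R F I.a₂ = (D.u⁻¹ : Fˣ) ^ 2 * (algebraMap R F W₀.a₂ -
      D.s * algebraMap R F W₀.a₁ + 3 * D.r - D.s ^ 2) := by
    have := integralModel_a₂_eq R M
    rw [← hI] at this
    rw [this, hM1, variableChange_a₂, map_a₂, map_a₁]
  have f3 : algebraMap R F I.a₃ = (D.u⁻¹ : Fˣ) ^ 3 * (algebraMap R F W₀.a₃ +
      D.r * algebraMap R F W₀.a₁ + 2 * D.t) := by
    have := integralModel_a₃_eq R M
    rw [← hI] at this
    rw [this, hM1, variableChange_a₃, map_a₃, map_a₁]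
  set s₀ : R := (w2⁻¹ : Rˣ) * (u₀ * I.a₁ - W₀.a₁) with hs₀
  have hs : algebraMap R F s₀ = D.s := by
    rw [hs₀, map_mul, map_sub, map_mul, f1, hu₀]
    calc algebraMap R F (w2⁻¹ : Rˣ) * ((D.u : F) * ((D.u⁻¹ : Fˣ) *
          (algebraMap R F W₀.a₁ + 2 * D.s)) - algebraMap R F W₀.a₁)
        = algebraMap R F (w2⁻¹ : Rˣ) * (((D.u : F) * (D.u⁻¹ : Fˣ)) *
          (algebraMap R F W₀.a₁ + 2 * D.s) - algebraMap R F W₀.a₁) := by ring
      _ = (algebraMap R F (w2⁻¹ : Rˣ) * 2) * D.s := by rw [hDi]; ring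
      _ = D.s := by rw [e2, one_mul]
  set r₀ : R := (w3⁻¹ : Rˣ) * (u₀ ^ 2 * I.a₂ - W₀.a₂ + s₀ * W₀.a₁ + s₀ ^ 2) with hr₀
  have hr : algebraMap R F r₀ = D.r := by
    rw [hr₀]
    simp only [map_mul, map_sub, map_add, map_pow]
    rw [hs, f2, hu₀]
    calc algebraMap R F (w3⁻¹ : Rˣ) * ((D.u : F) ^ 2 * ((D.u⁻¹ : Fˣ) ^ 2 *
          (algebraMap R F W₀.a₂ - D.s * algebraMap R F W₀.a₁ + 3 * D.r - D.s ^ 2)) -
          algebraMap R F W₀.a₂ + D.s * algebraMap R F W₀.a₁ + D.s ^ 2)
        = algebraMap R F (w3⁻¹ : Rˣ) * (((D.u : F) * (D.u⁻¹ : Fˣ)) ^ 2 *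
          (algebraMap R F W₀.a₂ - D.s * algebraMap R F W₀.a₁ + 3 * D.r - D.s ^ 2) -
          algebraMap R F W₀.a₂ + D.s * algebraMap R F W₀.a₁ + D.s ^ 2) := by ring
      _ = (algebraMap R F (w3⁻¹ : Rˣ) * 3) * D.r := by rw [hDi]; ring
      _ = D.r := by rw [e3, one_mul]
  set t₀ : R := (w2⁻¹ : Rˣ) * (u₀ ^ 3 * I.a₃ - W₀.a₃ - r₀ * W₀.a₁) with ht₀
  have ht : algebraMap R F t₀ = D.t := by
    rw [ht₀]
    simp only [map_mul, map_sub, map_pow]
    rw [hr, f3, hu₀]
    calc algebraMap R F (w2⁻¹ : Rˣ) * ((D.u : F) ^ 3 * ((D.u⁻¹ : Fˣ) ^ 3 *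
          (algebraMap R F W₀.a₃ + D.r * algebraMap R F W₀.a₁ + 2 * D.t)) -
          algebraMap R F W₀.a₃ - D.r * algebraMap R F W₀.a₁)
        = algebraMap R F (w2⁻¹ : Rˣ) * (((D.u : F) * (D.u⁻¹ : Fˣ)) ^ 3 *
          (algebraMap R F W₀.a₃ + D.r * algebraMap R F W₀.a₁ + 2 * D.t) -
          algebraMap R F W₀.a₃ - D.r * algebraMap R F W₀.a₁) := by ring
      _ = (algebraMap R F (w2⁻¹ : Rˣ) * 2) * D.t := by rw [hDi]; ring
      _ = D.t := by rw [e2, one_mul]
  refine ⟨⟨u₀, r₀, s₀, t₀⟩, ?_⟩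
  apply WeierstrassCurve.map_injective hinjR
  change I.map (algebraMap R F) = ((⟨u₀, r₀, s₀, t₀⟩ : VariableChange R) • W₀).map (algebraMap R F)
  rw [← map_variableChange, hIM, hM1]
  congr 1
  ext
  · exact hu₀.symm
  · exact hr.symm
  · exact hs.symm
  · exact ht.symm

variable (R) in
/-- The local polynomial of a curve with a good integral model. -/
theorem localPolynomial_of_good [Finite (ResidueField R)] {W : WeierstrassCurve F}
    (W₀ : WeierstrassCurve R)
    (C : VariableChange F) (hC : W = C • W₀.map (algebraMap R F)) (hΔ : IsUnit W₀.Δ)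
    (h2 : IsUnit (2 : R)) (h3 : IsUnit (3 : R)) :
    W.localPolynomial R = quad ((Nat.card (ResidueField R) : ℤ) + 1 -
      Nat.card (W₀.map (residue R)).toAffine.Point) (Nat.card (ResidueField R)) := by
  obtain ⟨hgood, C', hC'⟩ := exists_integral_change R W₀ C hC hΔ h2 h3
  rw [WeierstrassCurve.localPolynomial, if_pos hgood]
  have hred : (W.minimal R).reduction R = C'.map (residue R) • W₀.map (residue R) := by
    rw [reduction, hC', map_variableChange]
  have hell1 : (W₀.map (residue R)).IsElliptic := by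
    refine ⟨?_⟩
    rw [map_Δ]
    exact hΔ.map _
  have hell2 : (C'.map (residue R) • W₀.map (residue R)).IsElliptic := inferInstance
  rw [hred, card_point_smul _ _ hell1 hell2]
  rfl

end Minimal

end Pool.Agent.Lib.MP_bf61d2_nt
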