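import Mathlib
import Pool.Agent.Lib.MP_bf61d2_nt.Trim.Places
import Pool.Agent.Lib.MP_bf61d2_nt.Trim.TwistLocal

set_option autoImplicit false

/-!
Sums of a quadratic character over the places of a number field.
-/

namespace NumberField
end NumberField

namespace Pool.Agent.Lib.MP_bf61d2_nt

open NumberField IsDedekindDomain Filter Topology

section Ext

variable {K L : Type*} [Field K] [NumberField K] [Field L] [NumberField L] [Algebra K L]

/-- The place below. -/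
noncomputable def dn (w : HeightOneSpectrum (𝓞 L)) : HeightOneSpectrum (𝓞 K) where
  asIdeal := w.asIdeal.under (𝓞 K)
  isPrime := by
    have := w.isPrime
    infer_instance
  ne_bot := Ideal.under_ne_bot (𝓞 K) w.ne_bot

omit [NumberField K] [NumberField L] in
lemma mem_dn (w : HeightOneSpectrum (𝓞 L)) (x : 𝓞 K) :
    x ∈ (dn (K := K) w).asIdeal ↔ algebraMap (𝓞 K) (𝓞 L) x ∈ w.asIdeal := Iff.rfl

instance liesOver_dn (w : HeightOneSpectrum (𝓞 L)) :
    w.asIdeal.LiesOver (dn (K := K) w).asIdeal := ⟨rfl⟩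

lemma nm_dn (w : HeightOneSpectrum (𝓞 L)) :
    ∃ f : ℕ, 1 ≤ f ∧ nm w = nm (dn (K := K) w) ^ f := by
  have h := Ideal.absNorm_eq_pow_inertiaDeg'_of_liesOver w.asIdeal (dn (K := K) w).asIdeal
    (dn (K := K) w).isPrime (dn (K := K) w).ne_bot
  refine ⟨_, ?_, h⟩
  by_contra hcon
  have h0 : (dn (K := K) w).asIdeal.inertiaDeg' w.asIdeal = 0 := by omega
  rw [h0, pow_zero] at h
  have := one_lt_nm w
  unfold nm at this
  omega

lemma nm_dn_le (w : HeightOneSpectrum (𝓞 L)) : nm (dn (K := K) w) ≤ nm w := by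
  obtain ⟨f, hf, h⟩ := nm_dn (K := K) w
  rw [h]
  exact Nat.le_self_pow (by omega) _

lemma sq_nm_dn_le (w : HeightOneSpectrum (𝓞 L)) (h : nm w ≠ nm (dn (K := K) w)) :
    nm (dn (K := K) w) ^ 2 ≤ nm w := by
  obtain ⟨f, hf, hv⟩ := nm_dn (K := K) w
  have hf2 : 2 ≤ f := by
    rcases Nat.lt_or_ge f 2 with h2 | h2
    · have : f = 1 := by omega
      rw [this, pow_one] at hv
      exact absurd hv h
    · exact h2
  rw [hv]
  exact Nat.pow_le_pow_right (by have := one_lt_nm (dn (K := K) w); omega) hf2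

/-- The product of the norms of the places above. -/
lemma prod_nm_dvd (v : HeightOneSpectrum (𝓞 K)) (S : Finset (HeightOneSpectrum (𝓞 L)))
    (hS : ∀ w ∈ S, dn (K := K) w = v) : ∏ w ∈ S, nm w ∣ nm v ^ Module.finrank (𝓞 K) (𝓞 L) := by
  classical
  have hdvd : ∏ w ∈ S, w.asIdeal ∣ v.asIdeal.map (algebraMap (𝓞 K) (𝓞 L)) := by
    refine Finset.prod_dvd_of_coprime ?_ ?_
    · intro w _ w' _ hww
      rw [Function.onFun, Ideal.isCoprime_iff_sup_eq]
      have h1 : w.asIdeal.IsMaximal := w.isMaximal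
      have h2 : w'.asIdeal.IsMaximal := w'.isMaximal
      exact Ideal.IsMaximal.coprime_of_ne h1 h2 fun h => hww (HeightOneSpectrum.ext h)
    · intro w hw
      rw [Ideal.dvd_iff_le, Ideal.map_le_iff_le_comap, ← hS w hw]
      exact le_rfl
  have h2 := (Ideal.absNorm : Ideal (𝓞 L) →*₀ ℕ).toMonoidHom.map_dvd hdvd
  have h3 : Ideal.absNorm (∏ w ∈ S, w.asIdeal) = ∏ w ∈ S, nm w := by
    rw [map_prod]; rfl
  have h4 : Ideal.absNorm (v.asIdeal.map (algebraMap (𝓞 K) (𝓞 L))) =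
      nm v ^ Module.finrank (𝓞 K) (𝓞 L) := Ideal.absNorm_algebraMap (𝓞 K) (𝓞 L) v.asIdeal
  rw [← h3, ← h4]
  exact h2

/-- A place of residue degree one above `v` makes the square root rational. -/
lemma chi_of_degree_one {e : 𝓞 K} {θ : 𝓞 L} (hθ : θ ^ 2 = algebraMap (𝓞 K) (𝓞 L) e)
    (w : HeightOneSpectrum (𝓞 L)) (he : e ∉ (dn (K := K) w).asIdeal)
    (hw : nm w = nm (dn (K := K) w)) : chi (dn (K := K) w) e = 1 := by
  rw [chi_eq_one_iff _ he]
  set v := dn (K := K) w with hv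
  -- the residue map is surjective
  set f : 𝓞 K ⧸ v.asIdeal →+* 𝓞 L ⧸ w.asIdeal := algebraMap (𝓞 K ⧸ v.asIdeal) (𝓞 L ⧸ w.asIdeal)
    with hf
  have hmax : v.asIdeal.IsMaximal := v.isMaximal
  have hmaxw : w.asIdeal.IsMaximal := w.isMaximal
  have hinj : Function.Injective f := by
    let := Ideal.Quotient.field v.asIdeal
    exact RingHom.injective f
  have hfin : Finite (𝓞 L ⧸ w.asIdeal) := by
    apply Nat.finite_of_card_ne_zero
    have h1 : Nat.card (𝓞 L ⧸ w.asIdeal) = nm w := by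
      rw [nm, Ideal.absNorm_apply, Submodule.cardQuot_apply]
    rw [h1]
    have := one_lt_nm w
    omega
  have hsurj : Function.Surjective f := by
    have h1 : Nat.card (𝓞 K ⧸ v.asIdeal) = Nat.card (𝓞 L ⧸ w.asIdeal) := by
      have h2 : Nat.card (𝓞 L ⧸ w.asIdeal) = nm w := by
        rw [nm, Ideal.absNorm_apply, Submodule.cardQuot_apply]
      have h3 : Nat.card (𝓞 K ⧸ v.asIdeal) = nm v := by
        rw [nm, Ideal.absNorm_apply, Submodule.cardQuot_apply]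
      rw [h2, h3, hw]
    exact (Function.Injective.bijective_of_nat_card_le hinj h1.ge).2
  obtain ⟨y, hy⟩ := hsurj (Ideal.Quotient.mk w.asIdeal θ)
  obtain ⟨x, rfl⟩ := Ideal.Quotient.mk_surjective y
  have hx : algebraMap (𝓞 K) (𝓞 L) x - θ ∈ w.asIdeal := by
    rw [← Ideal.Quotient.eq]
    exact hy
  refine ⟨x, ?_⟩
  rw [mem_dn, map_sub, map_pow, ← hθ]
  have e1 : θ ^ 2 - algebraMap (𝓞 K) (𝓞 L) x ^ 2 =
      -(θ + algebraMap (𝓞 K) (𝓞 L) x) * (algebraMap (𝓞 K) (𝓞 L) x - θ) := by ring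
  rw [e1]
  exact Ideal.mul_mem_left _ _ hx

/-- Two places above a place where the element is a square. -/
lemma exists_two_above [IsGalois K L] [FiniteDimensional K L] {e : 𝓞 K} {θ : 𝓞 L}
    (hθ : θ ^ 2 = algebraMap (𝓞 K) (𝓞 L) e)
    (hθK : (θ : L) ∉ (⊥ : IntermediateField K L)) (v : HeightOneSpectrum (𝓞 K))
    (h2 : (2 : 𝓞 K) ∉ v.asIdeal) (he : e ∉ v.asIdeal) (hchi : chi v e = 1) :
    ∃ w₁ w₂ : HeightOneSpectrum (𝓞 L), w₁ ≠ w₂ ∧ dn (K := K) w₁ = v ∧ dn (K := K) w₂ = v := by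
  obtain ⟨x, hx⟩ := (chi_eq_one_iff v he).mp hchi
  have hvprime : v.asIdeal.IsPrime := v.isPrime
  have hvmax : v.asIdeal.IsMaximal := v.isMaximal
  -- the Galois automorphism
  obtain ⟨σ, hσ⟩ : ∃ σ : Gal(L/K), σ (θ : L) ≠ (θ : L) := by
    by_contra hcon
    push Not at hcon
    exact hθK ((IsGalois.mem_bot_iff_fixed _).mpr hcon)
  have hsq : (θ : L) ^ 2 = algebraMap K L (e : K) := by
    have h1 := congrArg (algebraMap (𝓞 L) L) hθ
    rw [map_pow] at h1
    exact h1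
  have hσθ : σ (θ : L) = -(θ : L) := by
    have h1 : (σ (θ : L)) ^ 2 = (θ : L) ^ 2 := by
      rw [← map_pow, hsq, AlgEquiv.commutes]
    rcases sq_eq_sq_iff_eq_or_eq_neg.mp h1 with h3 | h3
    · exact absurd h3 hσ
    · exact h3
  set τ : 𝓞 L ≃ₐ[𝓞 K] 𝓞 L := galRestrict (𝓞 K) K L (𝓞 L) σ with hτ
  have hτθ : τ θ = -θ := by
    apply RingOfIntegers.coe_injective
    have h1 : algebraMap (𝓞 L) L (τ θ) = σ (algebraMap (𝓞 L) L θ) :=
      algebraMap_galRestrict_apply (𝓞 K) σ θ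
    have h3 : algebraMap (𝓞 L) L (τ θ) = algebraMap (𝓞 L) L (-θ) := by
      rw [h1, map_neg]
      exact hσθ
    exact h3
  -- a place above
  obtain ⟨P, hPmax, hPover⟩ : ∃ P : Ideal (𝓞 L), P.IsMaximal ∧
      P.comap (algebraMap (𝓞 K) (𝓞 L)) = v.asIdeal := by
    refine Ideal.exists_ideal_over_maximal_of_isIntegral v.asIdeal ?_
    rw [(RingHom.injective_iff_ker_eq_bot _).mp (FaithfulSMul.algebraMap_injective (𝓞 K) (𝓞 L))]
    exact bot_le
  have hPbot : P ≠ ⊥ := by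
    rintro rfl
    apply v.ne_bot
    rw [← hPover, ← RingHom.ker_eq_comap_bot]
    exact (RingHom.injective_iff_ker_eq_bot _).mp (FaithfulSMul.algebraMap_injective (𝓞 K) (𝓞 L))
  set w₁ : HeightOneSpectrum (𝓞 L) := ⟨P, hPmax.isPrime, hPbot⟩ with hw₁
  have hw₁v : dn (K := K) w₁ = v := HeightOneSpectrum.ext hPover
  set w₂ : HeightOneSpectrum (𝓞 L) := ⟨P.comap (τ : 𝓞 L →+* 𝓞 L), by
      have := hPmax.isPrime
      infer_instance, by
      intro h
      obtain ⟨y, hy, hy0⟩ := Submodule.exists_mem_ne_zero_of_ne_bot hPbot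
      have h1 : τ.symm y ∈ P.comap (τ : 𝓞 L →+* 𝓞 L) := by
        rw [Ideal.mem_comap]
        change τ (τ.symm y) ∈ P
        rw [AlgEquiv.apply_symm_apply]
        exact hy
      rw [h, Ideal.mem_bot] at h1
      exact hy0 (by simpa using h1)⟩ with hw₂
  have hmem₂ : ∀ y : 𝓞 L, y ∈ w₂.asIdeal ↔ τ y ∈ w₁.asIdeal := fun y => Iff.rfl
  have hw₂v : dn (K := K) w₂ = v := by
    rw [← hw₁v]
    apply HeightOneSpectrum.ext
    ext y
    rw [mem_dn, mem_dn, hmem₂, AlgEquiv.commutes]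
  refine ⟨w₁, w₂, ?_, hw₁v, hw₂v⟩
  intro heq
  have hkey : 2 * x ∉ v.asIdeal := by
    intro h
    rcases hvprime.mem_or_mem h with h | h
    · exact h2 h
    · apply he
      have h3 : e = (e - x ^ 2) + x ^ 2 := by ring
      rw [h3]
      exact Ideal.add_mem _ hx (Ideal.pow_mem_of_mem _ h 2 (by norm_num))
  apply hkey
  rw [← hw₁v, mem_dn]
  set X : 𝓞 L := algebraMap (𝓞 K) (𝓞 L) x with hX
  have hτX : τ X = X := by rw [hX, AlgEquiv.commutes]
  have hprod : (θ - X) * (θ + X) ∈ w₁.asIdeal := by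
    have h3 : (θ - X) * (θ + X) = algebraMap (𝓞 K) (𝓞 L) (e - x ^ 2) := by
      rw [map_sub, map_pow, ← hθ, ← hX]; ring
    rw [h3, ← mem_dn (K := K) w₁, hw₁v]
    exact hx
  have hw₁prime : w₁.asIdeal.IsPrime := w₁.isPrime
  have e2 : algebraMap (𝓞 K) (𝓞 L) (2 * x) = 2 * X := by
    rw [map_mul, map_ofNat, ← hX]
  rw [e2]
  rcases hw₁prime.mem_or_mem hprod with h | h
  · have h3 : θ - X ∈ w₂.asIdeal := heq ▸ h
    rw [hmem₂, map_sub, hτθ, hτX] at h3
    have h4 : 2 * X = -((θ - X) + (-θ - X)) := by ring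
    rw [h4]
    exact (Ideal.neg_mem_iff _).mpr (Ideal.add_mem _ h h3)
  · have h3 : θ + X ∈ w₂.asIdeal := heq ▸ h
    rw [hmem₂, map_add, hτθ, hτX] at h3
    have h4 : 2 * X = (θ + X) + (-θ + X) := by ring
    rw [h4]
    exact Ideal.add_mem _ h h3

lemma card_above (hn : Module.finrank (𝓞 K) (𝓞 L) = 2) (v : HeightOneSpectrum (𝓞 K))
    (S : Finset (HeightOneSpectrum (𝓞 L))) (hS : ∀ w ∈ S, dn (K := K) w = v) : S.card ≤ 2 := by
  have h1 := prod_nm_dvd v S hS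
  rw [hn] at h1
  have hv := one_lt_nm v
  have h2 : nm v ^ S.card ≤ ∏ w ∈ S, nm w := by
    rw [← Finset.prod_const]
    exact Finset.prod_le_prod' fun w hw => by rw [← hS w hw]; exact nm_dn_le w
  have h3 : nm v ^ S.card ≤ nm v ^ 2 := h2.trans (Nat.le_of_dvd (pow_pos (by omega) _) h1)
  exact (Nat.pow_le_pow_iff_right hv).mp h3

lemma finite_above (hn : Module.finrank (𝓞 K) (𝓞 L) = 2) (v : HeightOneSpectrum (𝓞 K)) :
    ((dn (K := K) (L := L)) ⁻¹' {v}).Finite := by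
  by_contra hcon
  obtain ⟨S, hS, hcard⟩ := (Set.not_finite.mp hcon : Set.Infinite _).exists_subset_card_eq 3
  have := card_above (K := K) hn v S fun w hw => hS hw
  omega

lemma exists_fiber (hn : Module.finrank (𝓞 K) (𝓞 L) = 2) (v : HeightOneSpectrum (𝓞 K)) :
    ∃ T : Finset (HeightOneSpectrum (𝓞 L)), (∀ w, w ∈ T ↔ dn (K := K) w = v) ∧ T.card ≤ 2 := by
  refine ⟨(finite_above (L := L) hn v).toFinset, fun w => ?_, ?_⟩
  · rw [Set.Finite.mem_toFinset]; rfl
  · refine card_above hn v _ fun w hw => ?_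
    rw [Set.Finite.mem_toFinset] at hw
    exact hw

lemma finite_dvd {x : 𝓞 K} (hx : x ≠ 0) : {v : HeightOneSpectrum (𝓞 K) | x ∈ v.asIdeal}.Finite := by
  have h := Ideal.finite_factors (I := Ideal.span {x}) (by simpa using hx)
  refine h.subset fun v hv => ?_
  have hv' : x ∈ v.asIdeal := hv
  change v.asIdeal ∣ Ideal.span {x}
  rw [Ideal.dvd_span_singleton]
  exact hv'

end Ext

end Pool.Agent.Lib.MP_bf61d2_nt
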