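import Mathlib
import Pool.Agent.Lib.MP_bf61d2_nt.Trim.Places

set_option autoImplicit false

/-!
Bessel inequality on vertical lines.
-/

namespace NumberField
end NumberField

namespace Pool.Agent.Lib.MP_bf61d2_nt

open Filter Topology NumberField IsDedekindDomain ArithmeticFunction

variable {K : Type*} [Field K] [NumberField K] (W : WeierstrassCurve K)

/-- The bound for the remainder. -/
noncomputable def RB (K : Type*) [Field K] [NumberField K] : ℝ :=
  ∑' v : HeightOneSpectrum (𝓞 K), 150 / (pr v : ℝ) ^ 2

lemma RB_nonneg : 0 ≤ RB K := tsum_nonneg fun v => by positivity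

end Pool.Agent.Lib.MP_bf61d2_nt
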