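import Mathlib
import Pool.Agent.Lib.MP_bf61d2_nt.Trim.Analytic
import Pool.Agent.Lib.MP_bf61d2_nt.Trim.Line
import Pool.Agent.Lib.MP_bf61d2_nt.Trim.LocalCurve
import Pool.Agent.Lib.MP_bf61d2_nt.Trim.Places
import Pool.Agent.Lib.MP_bf61d2_nt.Trim.PrimeCos
import Pool.Agent.Lib.MP_bf61d2_nt.Trim.PrimeSum
import Pool.Agent.Lib.MP_bf61d2_nt.Trim.Structure

set_option autoImplicit false

/-!
Bessel inequality for families of quadratic twists.
-/

namespace NumberField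
end NumberField

namespace WeierstrassCurve
end WeierstrassCurve

namespace Pool.Agent.Lib.MP_bf61d2_nt

open Filter Topology NumberField IsDedekindDomain WeierstrassCurve

variable {K : Type*} [Field K] [NumberField K]

lemma tsum_cos_eq (W : WeierstrassCurve K) {σ : ℝ} (hσ : 1 < σ) (t : ℝ) :
    (LSeries (fun n => (cp W n : ℂ)) (σ + t * Complex.I)).re =
      ∑' v : HeightOneSpectrum (𝓞 K), wp σ v * (cc W v * Real.cos (t * Real.log (nm v))) := by
  have hre : 1 < ((σ : ℂ) + t * Complex.I).re := by simpa using hσ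
  have hs : Summable fun v : HeightOneSpectrum (𝓞 K) =>
      (cc W v : ℂ) * (nm v : ℂ) ^ (-((σ : ℂ) + t * Complex.I)) := by
    refine Summable.of_norm_bounded ((summable_wp (K := K) hσ).mul_left 2) fun v => ?_
    rw [norm_mul, Complex.norm_real, norm_cpow]
    have e : ((σ : ℂ) + t * Complex.I).re = σ := by simp
    rw [e]
    exact mul_le_mul_of_nonneg_right (abs_cc_le W v) (wp_pos σ v).le
  rw [(hasSum_cp W hre).LSeries_eq, Complex.re_tsum hs]
  refine tsum_congr fun v => ?_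
  rw [Complex.re_ofReal_mul, cpow_re (by have := one_lt_nm v; omega)]
  rw [wp]
  ring

lemma log_norm_LSeries' (W : WeierstrassCurve K) {δ : ℝ} (hδ : 0 < δ) (t : ℝ) :
    |Real.log ‖W.LSeries ((3 / 2 + δ : ℝ) + t * Complex.I)‖ -
      ∑' v : HeightOneSpectrum (𝓞 K), wp (1 + δ) v *
        (cc W v * Real.cos (t * Real.log (nm v)))| ≤ RB K := by
  set s : ℂ := (3 / 2 + δ : ℝ) + t * Complex.I with hs
  have hre : s.re = 3 / 2 + δ := by simp [hs]
  have h1 : 3 / 2 < s.re := by rw [hre]; linarith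
  have h2 : s - 1 / 2 = ((1 + δ : ℝ) : ℂ) + t * Complex.I := by
    rw [hs]; push_cast; ring
  rw [structure_formula W h1, Complex.norm_exp, Real.log_exp, Complex.add_re, h2,
    tsum_cos_eq W (by linarith), add_sub_cancel_left]
  exact (Complex.abs_re_le_norm _).trans (norm_Rem_le W h1.le)

/-- The twisted curves. -/
def tc (a b d : K) : WeierstrassCurve K := ⟨0, 0, 0, a * d ^ 2, b * d ^ 3⟩

lemma exists_model (a b : K) : ∃ A B n : 𝓞 K, n ≠ 0 ∧ a * (n : K) ^ 4 = A ∧ b * (n : K) ^ 6 = B := by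
  obtain ⟨a₁, a₂, ha₂, rfl⟩ := IsFractionRing.div_surjective (A := 𝓞 K) a
  obtain ⟨b₁, b₂, hb₂, rfl⟩ := IsFractionRing.div_surjective (A := 𝓞 K) b
  have ha : a₂ ≠ 0 := nonZeroDivisors.ne_zero ha₂
  have hb : b₂ ≠ 0 := nonZeroDivisors.ne_zero hb₂
  have ha' : (a₂ : K) ≠ 0 := by simpa using ha
  have hb' : (b₂ : K) ≠ 0 := by simpa using hb
  refine ⟨a₁ * a₂ ^ 3 * b₂ ^ 4, b₁ * a₂ ^ 6 * b₂ ^ 5, a₂ * b₂, mul_ne_zero ha hb, ?_, ?_⟩
  · simp only [map_mul, map_pow]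
    field_simp
  · simp only [map_mul, map_pow]
    field_simp

lemma exists_sqrep {d : K} (hd : d ≠ 0) : ∃ e m : 𝓞 K, e ≠ 0 ∧ m ≠ 0 ∧ d * (m : K) ^ 2 = e := by
  obtain ⟨x, y, hy, rfl⟩ := IsFractionRing.div_surjective (A := 𝓞 K) d
  have hy0 : y ≠ 0 := nonZeroDivisors.ne_zero hy
  have hy' : (y : K) ≠ 0 := by simpa using hy0
  have hx0 : x ≠ 0 := by
    rintro rfl
    apply hd
    simp
  refine ⟨x * y, y, mul_ne_zero hx0 hy0, hy0, ?_⟩
  simp only [map_mul]
  field_simp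

lemma tc_eq {a b d : K} {A B n e m : 𝓞 K} (hn : (n : K) ≠ 0) (hm : (m : K) ≠ 0)
    (ha : a * (n : K) ^ 4 = A) (hb : b * (n : K) ^ 6 = B) (hd : d * (m : K) ^ 2 = e) :
    tc a b d = (⟨Units.mk0 ((n : K) * m) (mul_ne_zero hn hm), 0, 0, 0⟩ : VariableChange K) •
      (⟨0, 0, 0, A * e ^ 2, B * e ^ 3⟩ : WeierstrassCurve (𝓞 K)).map (algebraMap (𝓞 K) K) := by
  have e1 : ((algebraMap (𝓞 K) K) A) = a * (n : K) ^ 4 := ha.symm
  have e2 : ((algebraMap (𝓞 K) K) B) = b * (n : K) ^ 6 := hb.symm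
  have e3 : ((algebraMap (𝓞 K) K) e) = d * (m : K) ^ 2 := hd.symm
  rw [variableChange_def]
  ext
  · simp [tc]
  · simp [tc]
  · simp [tc]
  · simp only [tc, map_a₄, map_a₂, map_a₁, map_a₃, map_mul, map_pow, map_zero, e1, e3,
      Units.val_inv_eq_inv_val, Units.val_mk0]
    field_simp
    ring
  · simp only [tc, map_a₆, map_a₄, map_a₂, map_a₁, map_a₃, map_mul, map_pow, map_zero, e2, e3,
      Units.val_inv_eq_inv_val, Units.val_mk0]
    field_simp
    ring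

lemma cc_eq_of_tr {W W' : WeierstrassCurve K} {v : HeightOneSpectrum (𝓞 K)} {c : ℤ}
    (h : tr W' v = c * tr W v) : cc W' v = c * cc W v := by
  unfold cc
  split_ifs with h1
  · rw [h]; push_cast; ring
  · simp

end Pool.Agent.Lib.MP_bf61d2_nt
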