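import Mathlib

set_option autoImplicit false

/-!
A Bessel type inequality for weighted sums.
-/

namespace Pool.Agent.Lib.MP_bf61d2_nt

open Filter Topology

variable {ι τ : Type*}

lemma summable_mul_bdd {w g : ι → ℝ} (hw : Summable w) (hw0 : ∀ i, 0 ≤ w i) {B : ℝ}
    (hg : ∀ i, |g i| ≤ B) : Summable fun i => w i * g i := by
  refine Summable.of_norm_bounded (hw.mul_right B) fun i => ?_
  rw [norm_mul, Real.norm_eq_abs, Real.norm_eq_abs, abs_of_nonneg (hw0 i)]
  exact mul_le_mul_of_nonneg_left (hg i) (hw0 i)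

end Pool.Agent.Lib.MP_bf61d2_nt
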